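import Pool.Agent.Helper15.GLP.Shape
import Pool.Agent.Helper62.GLP.Defs

set_option autoImplicit false

/-!
# Project GL+ (MP_120218), Conv: trees in sets of vectors as good functions on boxes
-/

namespace Pool.Agent.Helper15.GLP

open Finset Pool.Agent.Helper62.GLP

/-- the list of the pairs `(p j, a j + 1)` with `a j > 0` -/
def shp : {r : ℕ} → (Fin r → ℕ) → (Fin r → ℕ) → List (ℕ × ℕ)
  | 0, _, _ => []
  | _ + 1, p, a => if a 0 = 0 then shp (Fin.tail p) (Fin.tail a)
      else (p 0, a 0 + 1) :: shp (Fin.tail p) (Fin.tail a)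

theorem shp_mem : ∀ {r : ℕ} (p a : Fin r → ℕ) (q : ℕ × ℕ), q ∈ shp p a →
    (∃ j, q.1 = p j) ∧ 2 ≤ q.2 := by
  intro r
  induction r with
  | zero => intro p a q hq; simp [shp] at hq
  | succ r ih =>
    intro p a q hq
    unfold shp at hq
    by_cases h : a 0 = 0
    · rw [if_pos h] at hq
      obtain ⟨⟨j, hj⟩, h2⟩ := ih _ _ q hq
      exact ⟨⟨j.succ, hj⟩, h2⟩
    · rw [if_neg h, List.mem_cons] at hq
      rcases hq with rfl | hq
      · exact ⟨⟨0, rfl⟩, by show 2 ≤ a 0 + 1; omega⟩
      · obtain ⟨⟨j, hj⟩, h2⟩ := ih _ _ q hq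
        exact ⟨⟨j.succ, hj⟩, h2⟩

theorem sum_shp : ∀ {r : ℕ} (p a : Fin r → ℕ), ((∑ j, a j : ℕ) : ℝ) ≤
    ((shp p a).map (fun q => (q.2 : ℝ))).sum := by
  intro r
  induction r with
  | zero => intro p a; simp [shp]
  | succ r ih =>
    intro p a
    have h1 := ih (Fin.tail p) (Fin.tail a)
    have h2 : ∑ j, a j = a 0 + ∑ j, (Fin.tail a) j := Fin.sum_univ_succ a
    unfold shp
    by_cases h : a 0 = 0
    · rw [if_pos h, h2, h, zero_add]
      exact h1
    · rw [if_neg h, h2, List.map_cons, List.sum_cons]
      push_cast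
      push_cast at h1
      linarith

theorem sum_log_shp : ∀ {r : ℕ} (p a : Fin r → ℕ),
    ((shp p a).map (fun q => Real.log ((q.2 : ℝ) + 2))).sum ≤
      ∑ j, Real.log ((a j : ℝ) + 3) := by
  intro r
  induction r with
  | zero => intro p a; simp [shp]
  | succ r ih =>
    intro p a
    have h1 := ih (Fin.tail p) (Fin.tail a)
    have h2 : ∑ j, Real.log ((a j : ℝ) + 3) = Real.log ((a 0 : ℝ) + 3) +
      ∑ j, Real.log (((Fin.tail a) j : ℝ) + 3) := Fin.sum_univ_succ _
    have h3 : 0 ≤ Real.log ((a 0 : ℝ) + 3) := by
      apply Real.log_nonneg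
      have : (0 : ℝ) ≤ a 0 := Nat.cast_nonneg _
      linarith
    unfold shp
    by_cases h : a 0 = 0
    · rw [if_pos h, h2]
      linarith
    · rw [if_neg h, h2, List.map_cons, List.sum_cons]
      have h4 : ((((p 0, a 0 + 1) : ℕ × ℕ).2 : ℕ) : ℝ) + 2 = (a 0 : ℝ) + 3 := by
        push_cast
        ring
      rw [h4]
      linarith

/-- a tree of vectors of valuations gives a good function -/
theorem conv : ∀ {r : ℕ} (p a : Fin r → ℕ) (s : (Fin r → ℕ) → (Fin r → ℤ))
    (D0 : (Fin r → ℕ) → ℕ),
    (∀ t, (∀ j, t j ≤ a j) → ∀ j, ((padicValNat (p j) (D0 t) : ℕ) : ℤ) = s t j) →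
    (∀ t t', (∀ j, t j ≤ a j) → (∀ j, t' j ≤ a j) → ∀ j, (∀ i, i < j → t i = t' i) →
      (s t j = s t' j ↔ t j = t' j)) →
    ∃ D : List ℕ → ℕ, Good (shp p a) D ∧
      ∀ t, InBox (shp p a) t → ∃ t', (∀ j, t' j ≤ a j) ∧ D t = D0 t' := by
  intro r
  induction r with
  | zero =>
    intro p a s D0 _ _
    refine ⟨fun _ => D0 (fun _ => 0), trivial, fun t _ => ⟨fun _ => 0, fun j => j.elim0, rfl⟩⟩
  | succ r ih =>
    intro p a s D0 hD hs
    -- the inductive hypothesis for each value of the first coordinate
    have key : ∀ i, i ≤ a 0 → ∃ D : List ℕ → ℕ, Good (shp (Fin.tail p) (Fin.tail a)) D ∧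
        ∀ t, InBox (shp (Fin.tail p) (Fin.tail a)) t →
          ∃ t' : Fin r → ℕ, (∀ j, t' j ≤ (Fin.tail a) j) ∧ D t = D0 (Fin.cons i t') := by
      intro i hi
      have hbox : ∀ t : Fin r → ℕ, (∀ j, t j ≤ (Fin.tail a) j) →
          ∀ j, (Fin.cons i t : Fin (r + 1) → ℕ) j ≤ a j := by
        intro t ht j
        induction j using Fin.cases with
        | zero => simpa using hi
        | succ j => simpa [Fin.tail] using ht j
      refine ih (Fin.tail p) (Fin.tail a) (fun t => Fin.tail (s (Fin.cons i t)))
        (fun t => D0 (Fin.cons i t)) ?_ ?_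
      · intro t ht j
        exact hD _ (hbox t ht) j.succ
      · intro t t' ht ht' j hj
        have h1 := hs _ _ (hbox t ht) (hbox t' ht') j.succ (by
          intro i' hi'
          induction i' using Fin.cases with
          | zero => simp
          | succ i' =>
            simp only [Fin.cons_succ]
            exact hj i' (Fin.succ_lt_succ_iff.1 hi'))
        simpa [Fin.tail] using h1
    choose! E hE1 hE2 using key
    by_cases h : a 0 = 0
    · refine ⟨E 0, ?_, ?_⟩
      · unfold shp
        rw [if_pos h]
        exact hE1 0 (by omega)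
      · intro t ht
        unfold shp at ht
        rw [if_pos h] at ht
        obtain ⟨t', ht', h2⟩ := hE2 0 (by omega) t ht
        refine ⟨Fin.cons 0 t', fun j => ?_, h2⟩
        induction j using Fin.cases with
        | zero => simp
        | succ j => simpa [Fin.tail] using ht' j
    · refine ⟨fun t => match t with
        | [] => 0
        | i :: t => E i t, ?_, ?_⟩
      · unfold shp
        rw [if_neg h]
        refine ⟨⟨fun i => padicValNat (p 0) (D0 (Fin.cons i (fun _ => 0))), ?_, ?_⟩, ?_⟩
        · intro i hi j hj hij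
          have hi' : i ≤ a 0 := by omega
          have hj' : j ≤ a 0 := by omega
          have hb : ∀ i, i ≤ a 0 → ∀ l, (Fin.cons i (fun _ => 0) : Fin (r + 1) → ℕ) l ≤ a l := by
            intro i hi l
            induction l using Fin.cases with
            | zero => simpa using hi
            | succ l => simp
          have h1 := hs _ _ (hb i hi') (hb j hj') 0 (fun l hl => absurd hl (Fin.not_lt_zero l))
          rw [← hD _ (hb i hi'), ← hD _ (hb j hj')] at h1
          have h2 := h1.1 (by exact_mod_cast hij)
          simpa using h2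
        · intro i hi t ht
          have hi' : i ≤ a 0 := by omega
          obtain ⟨t', ht', h2⟩ := hE2 i hi' t ht
          show padicValNat (p 0) (E i t) = _
          rw [h2]
          have hb : ∀ t' : Fin r → ℕ, (∀ j, t' j ≤ (Fin.tail a) j) →
              ∀ l, (Fin.cons i t' : Fin (r + 1) → ℕ) l ≤ a l := by
            intro t' ht' l
            induction l using Fin.cases with
            | zero => simpa using hi'
            | succ l => simpa [Fin.tail] using ht' l
          have h1 := hs _ _ (hb t' ht') (hb (fun _ => 0) (fun j => Nat.zero_le _)) 0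
            (fun l hl => absurd hl (Fin.not_lt_zero l))
          rw [← hD _ (hb t' ht'), ← hD _ (hb (fun _ => 0) (fun j => Nat.zero_le _))] at h1
          have h3 := h1.2 (by simp)
          exact_mod_cast h3
        · intro i hi
          exact hE1 i (by omega)
      · intro t ht
        unfold shp at ht
        rw [if_neg h] at ht
        cases ht with
        | cons hi ht =>
          rename_i i t
          have hi' : i ≤ a 0 := by
            have : i < a 0 + 1 := hi
            omega
          obtain ⟨t', ht', h2⟩ := hE2 i hi' t ht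
          refine ⟨Fin.cons i t', fun j => ?_, h2⟩
          induction j using Fin.cases with
          | zero => simpa using hi'
          | succ j => simpa [Fin.tail] using ht' j

end Pool.Agent.Helper15.GLP
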