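import Pool.Agent.Helper15.GLP.GrowB
import Pool.Agent.Helper62.GLP.Decode

set_option autoImplicit false

/-!
# Project GL+ (MP_120218), GrowU: many rich cosets of a group of rank `r`, uniform in `r`
-/

namespace Pool.Agent.Helper15.GLP

open Finset Pool.Agent.Helper15.GL Pool.Agent.Helper62.GLP

/-- the combinatorial core: one shape for many multipliers -/
theorem shape_core (r' N : ℕ) (pr : Fin r' → ℕ) (P' : Finset ℕ)
    (hinj : ∀ s ∈ P', ∀ s' ∈ P', (∀ j, padicValNat (pr j) s = padicValNat (pr j) s') → s = s')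
    (A' : Finset ℤ) (W0 : Finset ℤ) (hW0 : W0.Nonempty)
    (hrich : ∀ w ∈ W0, (N + r').choose r' <
      (P'.filter (fun d : ℕ => (d : ℤ) * w ∈ A')).card) :
    ∃ (a : Fin r' → ℕ) (W : Finset ℤ), W ⊆ W0 ∧ W.Nonempty ∧ ∑ j, a j = N ∧
      (W0.card : ℝ) ≤ ((N + r').choose r' : ℕ) * W.card ∧
      ∀ z ∈ W, ∃ D : List ℕ → ℕ, Good (shp pr a) D ∧
        ∀ t, InBox (shp pr a) t → D t ∈ P' ∧ (D t : ℤ) * z ∈ A' := by
  classical
  obtain ⟨v, hv⟩ : ∃ v : ℕ → (Fin r' → ℤ),
      v = fun d j => ((padicValNat (pr j) d : ℕ) : ℤ) := ⟨_, rfl⟩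
  obtain ⟨S, hS⟩ : ∃ S : ℤ → Finset ℕ, S = fun w => P'.filter (fun d : ℕ => (d : ℤ) * w ∈ A') :=
    ⟨_, rfl⟩
  have memS : ∀ w d, d ∈ S w ↔ d ∈ P' ∧ (d : ℤ) * w ∈ A' := by
    intro w d
    rw [hS]
    exact Finset.mem_filter
  have hvinj : ∀ w, Set.InjOn v (S w) := by
    intro w d hd d' hd' h
    refine hinj d ((memS w d).1 (Finset.mem_coe.1 hd)).1 d' ((memS w d').1 (Finset.mem_coe.1 hd')).1
      fun j => ?_
    have h1 := congrFun h j
    rw [hv] at h1
    simp only at h1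
    exact_mod_cast h1
  have hex : ∀ w, ∃ a : Fin r' → ℕ, w ∈ W0 → (∑ j, a j = N ∧ Tr ((S w).image v) a) := by
    intro w
    by_cases hw : w ∈ W0
    · have h1 : (N + r').choose r' < ((S w).image v).card := by
        rw [Finset.card_image_of_injOn (hvinj w), hS]
        exact hrich w hw
      obtain ⟨a, ha⟩ := exists_shape ((S w).image v) N h1
      exact ⟨a, fun _ => ha⟩
    · exact ⟨fun _ => 0, fun h => absurd h hw⟩
  choose a ha using hex
  have hmaps : ∀ w ∈ W0, a w ∈ shapes r' N := fun w hw => mem_shapes.2 (ha w hw).1.le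
  have hshc : ((shapes r' N).card : ℝ) = (((N + r').choose r' : ℕ) : ℝ) := by rw [card_shapes]
  have hpos : 0 < (N + r').choose r' := Nat.choose_pos (by omega)
  have hposR : (0 : ℝ) < (((N + r').choose r' : ℕ) : ℝ) := by exact_mod_cast hpos
  have hshne : (shapes r' N).Nonempty := by
    rw [← Finset.card_pos, card_shapes]
    exact hpos
  obtain ⟨b, hb⟩ : ∃ b : ℝ, b = (W0.card : ℝ) / ((N + r').choose r' : ℕ) := ⟨_, rfl⟩
  obtain ⟨y, hy, hyb⟩ := Finset.exists_le_card_fiber_of_nsmul_le_card_of_maps_to hmaps hshne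
    (b := b) (by
      rw [nsmul_eq_mul, hshc, hb, mul_div_cancel₀ _ hposR.ne'])
  obtain ⟨W, hW⟩ : ∃ W : Finset ℤ, W = W0.filter (fun w => a w = y) := ⟨_, rfl⟩
  rw [← hW] at hyb
  have hWc : (W0.card : ℝ) ≤ ((N + r').choose r' : ℕ) * W.card := by
    rw [hb, div_le_iff₀ hposR] at hyb
    linarith
  have hWne : W.Nonempty := by
    rw [← Finset.card_pos]
    have h1 : (0 : ℝ) < W0.card := by exact_mod_cast hW0.card_pos
    have h2 : (0 : ℝ) < W.card := by
      by_contra h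
      have : (W.card : ℝ) = 0 := le_antisymm (not_lt.1 h) (Nat.cast_nonneg _)
      rw [this, mul_zero] at hWc
      linarith
    exact_mod_cast h2
  have memW : ∀ w ∈ W, w ∈ W0 ∧ a w = y := by
    intro w hw
    rw [hW] at hw
    exact Finset.mem_filter.1 hw
  refine ⟨y, W, fun w hw => (memW w hw).1, hWne, ?_, hWc, ?_⟩
  · obtain ⟨w, hw⟩ := hWne
    obtain ⟨h1, h2⟩ := memW w hw
    rw [← h2]
    exact (ha w h1).1
  · intro z hz
    obtain ⟨h1, h2⟩ := memW z hz
    obtain ⟨_, s, hs1, hs2⟩ := ha z h1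
    rw [h2] at hs1 hs2
    have hD0 : ∀ t : Fin r' → ℕ, ∃ d : ℕ, (∀ j, t j ≤ y j) → d ∈ S z ∧ v d = s t := by
      intro t
      by_cases ht : ∀ j, t j ≤ y j
      · obtain ⟨d, hd, hd2⟩ := Finset.mem_image.1 (hs1 t ht)
        exact ⟨d, fun _ => ⟨hd, hd2⟩⟩
      · exact ⟨0, fun h => absurd h ht⟩
    choose D0 hD0 using hD0
    obtain ⟨D, hG, hD⟩ := conv pr y s D0 (fun t ht j => by
      have h3 := congrFun (hD0 t ht).2 j
      rw [hv] at h3
      exact h3) hs2
    refine ⟨D, hG, fun t ht => ?_⟩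
    obtain ⟨t', ht', h4⟩ := hD t ht
    have h5 := (memS z _).1 (hD0 t' ht').1
    rw [h4]
    exact h5

/-- **Rank `r`, uniform in `r`.** -/
theorem grow_rankU (η B : ℝ) (hη : 0 < η) (hη1 : η ≤ 1) (hB : 0 ≤ B) :
    ∃ C c N0 : ℝ, 0 < C ∧ 0 < c ∧ c ≤ 1 ∧ 0 < N0 ∧
    ∀ (A : Finset ℤ) (r : ℕ) (g : Fin r → ℚ) (P Z : Finset ℚ), N0 ≤ A.card → 1 ≤ r →
      (r : ℝ) ≤ c * Real.log A.card →
      (∀ i, 0 < g i) → (∀ s ∈ P, ∃ e : Fin r → ℤ, s = ∏ i, g i ^ e i) →
      (P.card : ℝ) ≤ (A.card : ℝ) ^ c → (A.card : ℝ) ^ (1 - c) < Z.card →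
      (∀ z ∈ Z, (C * Real.log A.card / r) ^ r < (rich A P z).card) →
      GrowsB η B A := by
  classical
  obtain ⟨η0, hη0⟩ : ∃ η0 : ℝ, η0 = η / 8 := ⟨_, rfl⟩
  have hη0p : 0 < η0 := by rw [hη0]; positivity
  have hη01 : η0 ≤ 1 / 8 := by rw [hη0]; linarith
  obtain ⟨ε1, hε1, hdec⟩ := decode η0 hη0p
  -- the constants
  obtain ⟨K1, hK1⟩ : ∃ K1 : ℝ, K1 = (B + 2) * Real.log (1 / η0) / ε1 := ⟨_, rfl⟩
  have hlog0 : 0 < Real.log (1 / η0) := by
    apply Real.log_pos
    rw [lt_div_iff₀ hη0p]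
    linarith
  have hK1p : 0 < K1 := by rw [hK1]; positivity
  obtain ⟨l, hl⟩ : ∃ l : ℝ, l = η0 / (4 * (K1 + 4)) := ⟨_, rfl⟩
  have hlp : 0 < l := by rw [hl]; positivity
  have hlK : l * (K1 + 4) ≤ η0 / 4 := by
    rw [hl]
    have : K1 + 4 ≠ 0 := by positivity
    field_simp
    linarith
  have hl1 : l ≤ 1 := by nlinarith
  have hlogl : 0 ≤ Real.log (1 / l) := by
    apply Real.log_nonneg
    rw [le_div_iff₀ hlp]
    linarith
  obtain ⟨c, hc⟩ : ∃ c : ℝ, c = η0 / (4 * (1 + Real.log (1 / l))) := ⟨_, rfl⟩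
  have hc0 : 0 < c := by rw [hc]; positivity
  have hcl : c * (1 + Real.log (1 / l)) ≤ η0 / 4 := by
    rw [hc]
    have : 1 + Real.log (1 / l) ≠ 0 := by positivity
    field_simp
    linarith
  have hcη : c ≤ η0 / 4 := by nlinarith
  have hc1 : c ≤ 1 := by linarith
  refine ⟨Real.exp 1 * (K1 + 2), c, Real.exp 1, by positivity, hc0, hc1, Real.exp_pos _, ?_⟩
  intro A r g P Z hAN hr hra hg hP hPc hmany hrich
  have hA0 : (0 : ℝ) < A.card := lt_of_lt_of_le (Real.exp_pos _) hAN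
  obtain ⟨a, ha⟩ : ∃ a : ℝ, a = Real.log A.card := ⟨_, rfl⟩
  have ha1 : 1 ≤ a := by
    rw [ha, Real.le_log_iff_exp_le hA0]
    exact hAN
  rw [← ha] at hrich hra
  have hA1R : (1 : ℝ) ≤ A.card := by
    have := Real.add_one_le_exp (1 : ℝ)
    linarith
  have hr0 : (0 : ℝ) < r := by exact_mod_cast hr
  have hra' : (r : ℝ) ≤ a := by nlinarith
  have hZp : (0 : ℝ) < Z.card := lt_of_le_of_lt (Real.rpow_nonneg hA0.le _) hmany
  have hZne : Z.Nonempty := by
    rw [← Finset.card_pos]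
    exact_mod_cast hZp
  -- the number `N`
  obtain ⟨N, hN⟩ : ∃ N : ℕ, N = ⌈K1 * a⌉₊ := ⟨_, rfl⟩
  have hNK : K1 * a ≤ N := by rw [hN]; exact Nat.le_ceil _
  have hNle : (N : ℝ) ≤ (K1 + 1) * a := by
    rw [hN]
    have := (Nat.ceil_lt_add_one (a := K1 * a) (by positivity)).le
    nlinarith
  have hT : (((N + r).choose r : ℕ) : ℝ) ≤ (Real.exp 1 * (K1 + 2) * a / r) ^ r := by
    refine (choose_le N r hr).trans (pow_le_pow_left₀ (by positivity) ?_ r)
    rw [div_le_div_iff_of_pos_right hr0, mul_assoc]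
    refine mul_le_mul_of_nonneg_left ?_ (Real.exp_pos 1).le
    nlinarith
  have hT1 : (1 : ℝ) ≤ (Real.exp 1 * (K1 + 2) * a / r) ^ r := by
    refine le_trans ?_ hT
    exact_mod_cast Nat.one_le_iff_ne_zero.2 (Nat.choose_pos (by omega)).ne'
  have hPpos : ∀ s ∈ P, 0 < s := by
    intro s hs
    obtain ⟨e, he⟩ := hP s hs
    rw [he]
    exact Finset.prod_pos fun i _ => zpow_pos (hg i) _
  have hZ0 : ∀ z ∈ Z, z ≠ 0 := by
    rintro z hz rfl
    have h1 := hrich 0 hz
    have h2 : (rich A P 0).card ≤ 1 := by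
      rw [Finset.card_le_one]
      intro x hx y hy
      obtain ⟨_, s, _, hs⟩ := mem_rich.1 hx
      obtain ⟨_, t, _, ht⟩ := mem_rich.1 hy
      rw [zero_mul] at hs ht
      have h3 : (x : ℚ) = y := by rw [hs, ht]
      exact_mod_cast h3
    have h3 : ((rich A P 0).card : ℝ) ≤ 1 := by exact_mod_cast h2
    linarith
  have hPne : P.Nonempty := by
    obtain ⟨z, hz⟩ := hZne
    have h1 := hrich z hz
    have h2 : (0 : ℝ) < (rich A P z).card := by linarith
    have h3 : 0 < (rich A P z).card := by exact_mod_cast h2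
    obtain ⟨x, hx⟩ := Finset.card_pos.1 h3
    obtain ⟨_, s, hs, _⟩ := mem_rich.1 hx
    exact ⟨s, hs⟩
  have hAne : A.Nonempty := by
    rw [← Finset.card_pos]
    exact_mod_cast hA0
  have hPp : (1 : ℝ) ≤ P.card := by exact_mod_cast hPne.card_pos
  -- separating primes
  obtain ⟨q, hq, hqr, hsep⟩ := exists_separating r g hg
  obtain ⟨r', hr'⟩ : ∃ r' : ℕ, q.card = r' := ⟨_, rfl⟩
  rw [hr'] at hqr
  have hr'r : (r' : ℝ) ≤ r := by exact_mod_cast hqr
  obtain ⟨pr, hpr⟩ : ∃ pr : Fin r' → ℕ, pr = fun j => q.orderEmbOfFin hr' j := ⟨_, rfl⟩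
  have hprime : ∀ j, (pr j).Prime := by
    intro j
    rw [hpr]
    exact hq _ (Finset.orderEmbOfFin_mem q hr' j)
  have hprsurj : ∀ p ∈ q, ∃ j, pr j = p := by
    intro p hp
    have h1 : p ∈ Set.range (q.orderEmbOfFin hr') := by
      rw [Finset.range_orderEmbOfFin]
      exact hp
    obtain ⟨j, hj⟩ := h1
    exact ⟨j, by rw [hpr]; exact hj⟩
  -- scaling
  obtain ⟨D, σ, hD, hσ⟩ := scale_pos P hPpos
  have hDQ : (D : ℚ) ≠ 0 := by exact_mod_cast hD.ne'
  have hσinj : Set.InjOn σ P := by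
    intro s hs s' hs' h
    have h1 := (hσ s hs).2
    have h2 := (hσ s' hs').2
    rw [h, h2] at h1
    exact (mul_right_cancel₀ hDQ h1).symm
  obtain ⟨P', hP'⟩ : ∃ P' : Finset ℕ, P' = P.image σ := ⟨_, rfl⟩
  have hP'c : P'.card ≤ P.card := by
    rw [hP']
    exact Finset.card_image_le
  have hP'ne : P'.Nonempty := by rw [hP']; exact hPne.image σ
  have hP'0 : ∀ s ∈ P', s ≠ 0 := by
    intro s hs
    rw [hP', Finset.mem_image] at hs
    obtain ⟨t, ht, rfl⟩ := hs
    exact (hσ t ht).1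
  have hinj : ∀ s ∈ P', ∀ s' ∈ P',
      (∀ j, padicValNat (pr j) s = padicValNat (pr j) s') → s = s' := by
    intro s hs s' hs' h
    rw [hP', Finset.mem_image] at hs hs'
    obtain ⟨t, ht, rfl⟩ := hs
    obtain ⟨t', ht', rfl⟩ := hs'
    obtain ⟨e, he⟩ := hP t ht
    obtain ⟨e', he'⟩ := hP t' ht'
    have h1 : t = t' := by
      rw [he, he']
      refine hsep e e' fun p hp => ?_
      rw [← he, ← he']
      have := Fact.mk (hq p hp)
      obtain ⟨j, rfl⟩ := hprsurj p hp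
      have h2 : (padicValRat (pr j) ((σ t : ℕ) : ℚ)) = padicValRat (pr j) ((σ t' : ℕ) : ℚ) := by
        rw [padicValRat.of_nat, padicValRat.of_nat, h j]
      rw [(hσ t ht).2, (hσ t' ht').2, padicValRat.mul (hPpos t ht).ne' hDQ,
        padicValRat.mul (hPpos t' ht').ne' hDQ] at h2
      linarith
    rw [h1]
  obtain ⟨E, hE, hEz⟩ := scale_int (Z.image (fun z : ℚ => z / (D : ℚ)))
  have hEQ : (E : ℚ) ≠ 0 := by exact_mod_cast hE.ne'
  obtain ⟨ω, hω⟩ : ∃ ω : ℚ → ℤ, ω = fun z : ℚ => (z / (D : ℚ) * (E : ℚ)).num :=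
    ⟨_, rfl⟩
  have hωz : ∀ z ∈ Z, ((ω z : ℤ) : ℚ) = z / D * E := by
    intro z hz
    rw [hω]
    exact hEz _ (Finset.mem_image_of_mem _ hz)
  have hωinj : Set.InjOn ω Z := by
    intro z hz w hw h
    have h1 := hωz z (Finset.mem_coe.1 hz)
    have h2 := hωz w (Finset.mem_coe.1 hw)
    rw [h, h2] at h1
    have h3 := mul_right_cancel₀ hEQ h1
    exact ((div_left_inj' hDQ).1 h3).symm
  obtain ⟨A', hA'⟩ : ∃ A' : Finset ℤ, A' = A.image (fun x => (E : ℤ) * x) := ⟨_, rfl⟩
  obtain ⟨W0, hW0⟩ : ∃ W0 : Finset ℤ, W0 = Z.image ω := ⟨_, rfl⟩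
  have hW0c : W0.card = Z.card := by rw [hW0, Finset.card_image_of_injOn hωinj]
  have hW0ne : W0.Nonempty := by rw [hW0]; exact hZne.image _
  have hrich' : ∀ w ∈ W0, (N + r').choose r' <
      (P'.filter (fun d : ℕ => (d : ℤ) * w ∈ A')).card := by
    intro w hw
    rw [hW0, Finset.mem_image] at hw
    obtain ⟨z, hz, rfl⟩ := hw
    have h1 : (((N + r').choose r' : ℕ) : ℝ) < (rich A P z).card := by
      refine lt_of_le_of_lt ?_ (hrich z hz)
      refine le_trans ?_ hT
      exact_mod_cast choose_mono N r r' hqr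
    have h2 : (N + r').choose r' < (rich A P z).card := by exact_mod_cast h1
    refine h2.trans_le ?_
    have hz0 := hZ0 z hz
    refine Finset.card_le_card_of_injOn (fun x : ℤ => σ (x / z)) ?_ ?_
    · intro x hx
      obtain ⟨hxA, s, hs, hxs⟩ := mem_rich.1 (Finset.mem_coe.1 hx)
      have h3 : (x : ℚ) / z = s := by
        rw [hxs]
        field_simp
      refine Finset.mem_coe.2 (Finset.mem_filter.2 ⟨?_, ?_⟩)
      · show σ (x / z) ∈ P'
        rw [h3, hP']
        exact Finset.mem_image_of_mem σ hs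
      · have h4 : ((((σ (x / z) : ℕ) : ℤ) * ω z : ℤ) : ℚ) = (((E : ℤ) * x : ℤ) : ℚ) := by
          push_cast
          rw [hωz z hz, h3, (hσ _ hs).2, hxs]
          field_simp
        have h5 : ((σ (x / z) : ℕ) : ℤ) * ω z = (E : ℤ) * x := by exact_mod_cast h4
        show ((σ (x / z) : ℕ) : ℤ) * ω z ∈ A'
        rw [h5, hA']
        exact Finset.mem_image_of_mem _ hxA
    · intro x hx y hy h
      obtain ⟨_, s, hs, hxs⟩ := mem_rich.1 (Finset.mem_coe.1 hx)
      obtain ⟨_, t, ht, hyt⟩ := mem_rich.1 (Finset.mem_coe.1 hy)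
      have h3 : (x : ℚ) / z = s := by
        rw [hxs]
        field_simp
      have h4 : (y : ℚ) / z = t := by
        rw [hyt]
        field_simp
      have h5 : σ (x / z) = σ (y / z) := h
      rw [h3, h4] at h5
      have h6 := hσinj (Finset.mem_coe.2 hs) (Finset.mem_coe.2 ht) h5
      rw [h6, ← hyt] at hxs
      exact_mod_cast hxs
  obtain ⟨sh, W, hWW, hWne, hsum, hWc, hWg⟩ :=
    shape_core r' N pr P' hinj A' W0 hW0ne hrich'
  -- the size of `W`
  have hWp : (1 : ℝ) ≤ W.card := by exact_mod_cast hWne.card_pos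
  have hchp : (0 : ℝ) < (((N + r').choose r' : ℕ) : ℝ) := by
    exact_mod_cast Nat.choose_pos (by omega)
  have hr'0 : (0 : ℝ) ≤ r' := Nat.cast_nonneg _
  have hlogch : Real.log (((N + r').choose r' : ℕ) : ℝ) ≤ η0 / 2 * a := by
    refine (log_choose_le N r' l hlp).trans ?_
    have e1 : (r' : ℝ) * (1 + Real.log (1 / l)) ≤ η0 / 4 * a := by
      calc (r' : ℝ) * (1 + Real.log (1 / l)) ≤ (c * a) * (1 + Real.log (1 / l)) :=
            mul_le_mul_of_nonneg_right (by linarith) (by positivity)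
        _ = (c * (1 + Real.log (1 / l))) * a := by ring
        _ ≤ η0 / 4 * a := mul_le_mul_of_nonneg_right hcl (by linarith)
    have e2 : l * ((N : ℝ) + r') ≤ η0 / 4 * a := by
      calc l * ((N : ℝ) + r') ≤ l * ((K1 + 4) * a) :=
            mul_le_mul_of_nonneg_left (by nlinarith) hlp.le
        _ = (l * (K1 + 4)) * a := by ring
        _ ≤ η0 / 4 * a := mul_le_mul_of_nonneg_right hlK (by linarith)
    nlinarith
  have hlogW : (1 - η0) * a ≤ Real.log W.card := by
    have e1 : (A.card : ℝ) ^ (1 - c) ≤ ((N + r').choose r' : ℕ) * W.card := by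
      rw [hW0c] at hWc
      exact hmany.le.trans hWc
    have e2 := Real.log_le_log (Real.rpow_pos_of_pos hA0 _) e1
    rw [Real.log_rpow hA0, Real.log_mul hchp.ne' (by linarith), ← ha] at e2
    nlinarith
  have hlogW2 : Real.log W.card ≤ 2 * a := by
    have e1 : W.card ≤ A.card * P.card := by
      have h1 : W ⊆ (A ×ˢ P).image (fun x : ℤ × ℚ => ω ((x.1 : ℚ) / x.2)) := by
        intro w hw
        have hw0 := hWW hw
        rw [hW0, Finset.mem_image] at hw0
        obtain ⟨z, hz, rfl⟩ := hw0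
        have h1 := hrich z hz
        have h2 : (0 : ℝ) < (rich A P z).card := by linarith
        have h3 : 0 < (rich A P z).card := by exact_mod_cast h2
        obtain ⟨x, hx⟩ := Finset.card_pos.1 h3
        obtain ⟨hxA, s, hs, hxs⟩ := mem_rich.1 hx
        rw [Finset.mem_image]
        refine ⟨(x, s), Finset.mk_mem_product hxA hs, ?_⟩
        have hs0 := (hPpos s hs).ne'
        have h4 : (x : ℚ) / s = z := by
          rw [hxs]
          field_simp
        show ω ((x : ℚ) / s) = ω z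
        rw [h4]
      calc W.card ≤ ((A ×ˢ P).image (fun x : ℤ × ℚ => ω ((x.1 : ℚ) / x.2))).card :=
            Finset.card_le_card h1
        _ ≤ (A ×ˢ P).card := Finset.card_image_le
        _ = A.card * P.card := Finset.card_product _ _
    have e2 : (W.card : ℝ) ≤ A.card * P.card := by exact_mod_cast e1
    have e3 : (W.card : ℝ) ≤ A.card * (A.card : ℝ) ^ c :=
      e2.trans (mul_le_mul_of_nonneg_left hPc hA0.le)
    have e4 := Real.log_le_log (by linarith) e3
    rw [Real.log_mul hA0.ne' (Real.rpow_pos_of_pos hA0 _).ne', Real.log_rpow hA0, ← ha] at e4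
    nlinarith
  have hlogP : Real.log P'.card ≤ η0 * a := by
    have e0 : (1 : ℝ) ≤ P'.card := by exact_mod_cast hP'ne.card_pos
    have e1 : (P'.card : ℝ) ≤ (A.card : ℝ) ^ c := by
      refine le_trans ?_ hPc
      exact_mod_cast hP'c
    have e2 := Real.log_le_log (by linarith) e1
    rw [Real.log_rpow hA0, ← ha] at e2
    nlinarith
  have hlogs : ((shp pr sh).map (fun q => Real.log ((q.2 : ℝ) + 2))).sum ≤ η0 * a := by
    refine (sum_log_shp pr sh).trans ?_
    have e1 : ∑ j, Real.log ((sh j : ℝ) + 3) ≤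
        ∑ j, (l * ((sh j : ℝ) + 3) + Real.log (1 / l)) := by
      refine Finset.sum_le_sum fun j _ => log_le_lin l _ hlp ?_
      have : (0 : ℝ) ≤ sh j := Nat.cast_nonneg _
      linarith
    refine e1.trans ?_
    have e2 : ∑ j, (l * ((sh j : ℝ) + 3) + Real.log (1 / l)) =
        l * (N + 3 * r') + r' * Real.log (1 / l) := by
      rw [Finset.sum_add_distrib, ← Finset.mul_sum, Finset.sum_add_distrib, Finset.sum_const,
        Finset.sum_const, Finset.card_univ, Fintype.card_fin, nsmul_eq_mul, nsmul_eq_mul]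
      have : ∑ j, (sh j : ℝ) = N := by exact_mod_cast hsum
      rw [this]
      ring
    rw [e2]
    have e3 : (r' : ℝ) * Real.log (1 / l) ≤ η0 / 4 * a := by
      calc (r' : ℝ) * Real.log (1 / l) ≤ (c * a) * (1 + Real.log (1 / l)) := by
            refine mul_le_mul (by linarith) (by linarith) hlogl (by positivity)
        _ = (c * (1 + Real.log (1 / l))) * a := by ring
        _ ≤ η0 / 4 * a := mul_le_mul_of_nonneg_right hcl (by linarith)
    have e4 : l * ((N : ℝ) + 3 * r') ≤ η0 / 4 * a := by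
      have hca : (r' : ℝ) ≤ c * a := by linarith
      have hca2 : c * a ≤ 1 / 32 * a := mul_le_mul_of_nonneg_right (by linarith) (by linarith)
      calc l * ((N : ℝ) + 3 * r') ≤ l * ((K1 + 4) * a) :=
            mul_le_mul_of_nonneg_left (by nlinarith) hlp.le
        _ = (l * (K1 + 4)) * a := by ring
        _ ≤ η0 / 4 * a := mul_le_mul_of_nonneg_right hlK (by linarith)
    nlinarith
  -- decoding
  intro X hX hXB
  rw [← ha] at hXB ⊢
  obtain ⟨X', hX'⟩ : ∃ X' : Finset ℤ, X' = X.image (fun x => (E : ℤ) * x) := ⟨_, rfl⟩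
  have hX'c : X'.card = X.card := by rw [hX']; exact card_scale E hE X
  have hX'ne : X'.Nonempty := by rw [hX']; exact hX.image _
  have hX1 : (1 : ℝ) ≤ X.card := by exact_mod_cast hX.card_pos
  have hx0 : 0 ≤ Real.log X.card := Real.log_nonneg hX1
  have hfin := hdec (shp pr sh) X' W A' P' ((B + 2) * a) (fun q hq => by
      obtain ⟨⟨j, hj⟩, h2⟩ := shp_mem pr sh q hq
      rw [hj]
      exact ⟨hprime j, h2⟩) hX'ne hWne hP'0 (by positivity) (by
      rw [hX'c]
      linarith) hWg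
  have hcs : (Finset.image₂ (fun a b => a + b) X' A').card =
      (Finset.image₂ (fun a b => a + b) X A).card := by
    rw [hX', hA']
    exact card_sum_scale E hE X A
  rw [hcs, hX'c] at hfin
  have hexp : Real.exp (-(ε1 * ((shp pr sh).map (fun q => (q.2 : ℝ))).sum / ((B + 2) * a))) ≤
      η0 := by
    have e1 : (N : ℝ) ≤ ((shp pr sh).map (fun q => (q.2 : ℝ))).sum := by
      have := sum_shp pr sh
      rw [hsum] at this
      exact this
    have e2 : Real.log (1 / η0) ≤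
        ε1 * ((shp pr sh).map (fun q => (q.2 : ℝ))).sum / ((B + 2) * a) := by
      rw [le_div_iff₀ (by positivity)]
      have e3 : Real.log (1 / η0) * ((B + 2) * a) = ε1 * (K1 * a) := by
        rw [hK1]
        field_simp
      rw [e3]
      exact mul_le_mul_of_nonneg_left (hNK.trans e1) hε1.le
    have e4 : Real.exp (-(ε1 * ((shp pr sh).map (fun q => (q.2 : ℝ))).sum / ((B + 2) * a))) ≤
        Real.exp (-Real.log (1 / η0)) := Real.exp_le_exp.2 (by linarith)
    refine e4.trans ?_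
    rw [one_div, Real.log_inv, neg_neg, Real.exp_log hη0p]
  have hw0 : 0 ≤ Real.log W.card := Real.log_nonneg hWp
  have h1 : (1 - 2 * η0) * (Real.log X.card + Real.log W.card) ≤
      (1 - η0 - Real.exp (-(ε1 * ((shp pr sh).map (fun q => (q.2 : ℝ))).sum /
        ((B + 2) * a)))) * (Real.log X.card + Real.log W.card) :=
    mul_le_mul_of_nonneg_right (by linarith) (by linarith)
  have h2 : (1 - 2 * η0) * ((1 - η0) * a) ≤ (1 - 2 * η0) * Real.log W.card :=
    mul_le_mul_of_nonneg_left hlogW (by linarith)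
  have h3 : η = 8 * η0 := by rw [hη0]; ring
  rw [h3]
  nlinarith [mul_nonneg hη0p.le hx0, mul_nonneg hη0p.le (show (0 : ℝ) ≤ a by linarith),
    mul_nonneg (mul_nonneg hη0p.le hη0p.le) (show (0 : ℝ) ≤ a by linarith)]

end Pool.Agent.Helper15.GLP
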