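import Pool.Agent.Helper15.GL.Main
import Pool.Agent.Helper15.GLP.GrowU

set_option autoImplicit false

/-!
# Project GL+ (MP_120218), FinalU: the dichotomy, uniform in the rank
-/

namespace Pool.Agent.Helper15.GLP

open Finset Pool.Agent.Helper15.GL

/-- large ranks are trivial: `(1 + y / r) ^ r` is at least `exp (c₃ a)` for `r ≥ c a` -/
theorem thr_large (y c a : ℝ) (r : ℕ) (hy : 0 < y) (hc : 0 < c) (ha : 0 < a) (hr : 1 ≤ r)
    (hra : c * a ≤ r) :
    Real.exp (y * c / (c + y) * a) ≤ (1 + y * a / r) ^ r := by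
  have hr0 : (0 : ℝ) < r := by exact_mod_cast hr
  have hu : 0 < 1 + y * a / r := by positivity
  rw [← Real.log_le_log_iff (Real.exp_pos _) (pow_pos hu r), Real.log_exp, Real.log_pow]
  have h1 := Real.one_sub_inv_le_log_of_pos hu
  have h2 : (r : ℝ) * (1 - (1 + y * a / r)⁻¹) ≤ r * Real.log (1 + y * a / r) :=
    mul_le_mul_of_nonneg_left h1 hr0.le
  refine le_trans ?_ h2
  have h3 : (r : ℝ) * (1 - (1 + y * a / r)⁻¹) = r * (y * a) / (r + y * a) := by
    have h4 : (r : ℝ) + y * a ≠ 0 := by positivity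
    field_simp
    ring
  rw [h3, div_mul_eq_mul_div, div_le_div_iff₀ (by positivity) (by positivity)]
  have h5 : 0 ≤ y * y * a * ((r : ℝ) - c * a) := by
    have : 0 ≤ (r : ℝ) - c * a := by linarith
    positivity
  nlinarith [h5]

/-- doubling the threshold -/
theorem thr_double (C a : ℝ) (r : ℕ) (hC : 0 ≤ C) (ha : 0 ≤ a) (hr : 1 ≤ r) :
    2 * (C * a / r) ^ r ≤ (1 + 2 * C * a / r) ^ r := by
  have hr0 : (0 : ℝ) < r := by exact_mod_cast hr
  have h1 : (2 : ℝ) ≤ 2 ^ r := by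
    calc (2 : ℝ) = 2 ^ 1 := by norm_num
      _ ≤ 2 ^ r := pow_le_pow_right₀ (by norm_num) hr
  calc 2 * (C * a / r) ^ r ≤ 2 ^ r * (C * a / r) ^ r :=
        mul_le_mul_of_nonneg_right h1 (by positivity)
    _ = (2 * C * a / r) ^ r := by
        rw [← mul_pow]
        congr 1
        ring
    _ ≤ (1 + 2 * C * a / r) ^ r := pow_le_pow_left₀ (by positivity) (by linarith) r

/-- doubling the threshold, second form -/
theorem thr_double' (C a : ℝ) (r : ℕ) (hC : 0 ≤ C) (ha : 1 ≤ a) (hr : 1 ≤ r) :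
    2 * (1 + C * a / r) ^ r ≤ (1 + (2 * C + 1) * a / r) ^ r := by
  have hr0 : (0 : ℝ) < r := by exact_mod_cast hr
  have hu : 0 < 1 + C * a / r := by positivity
  obtain ⟨d, hd⟩ : ∃ d : ℝ, d = ((C + 1) * a / r) / (1 + C * a / r) := ⟨_, rfl⟩
  have hd0 : 0 ≤ d := by rw [hd]; positivity
  have h1 : 1 + (2 * C + 1) * a / r = (1 + C * a / r) * (1 + d) := by
    rw [hd]
    field_simp
    ring
  have h2 := one_add_mul_le_pow (show (-2 : ℝ) ≤ d by linarith) r
  have h3 : 1 ≤ (r : ℝ) * d := by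
    have e : (r : ℝ) * d = (C + 1) * a / (1 + C * a / r) := by
      rw [hd]
      field_simp
    rw [e, le_div_iff₀ hu, one_mul]
    have h4 : C * a / r ≤ C * a := by
      rw [div_le_iff₀ hr0]
      have : (1 : ℝ) ≤ r := by exact_mod_cast hr
      nlinarith [mul_nonneg hC (show (0 : ℝ) ≤ a by linarith)]
    nlinarith
  rw [h1, mul_pow, mul_comm]
  exact mul_le_mul_of_nonneg_left (by linarith) (by positivity)

/-- the dichotomy for groups of rank `r`, with signs, uniform in `r` -/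
theorem dich_rankU (η B : ℝ) (hη : 0 < η) (hη1 : η ≤ 1) (hB : 0 ≤ B) :
    ∃ C c N0 : ℝ, 0 < C ∧ 0 < c ∧ c ≤ 1 ∧ 1 ≤ N0 ∧
    ∀ (A : Finset ℤ) (r : ℕ) (g : Fin r → ℚ) (P Z : Finset ℚ), N0 ≤ A.card → 1 ≤ r →
      (∀ i, g i ≠ 0) → (∀ s ∈ P, ∃ e : Fin r → ℤ, s = ∏ i, g i ^ e i) →
      (P.card : ℝ) ≤ (A.card : ℝ) ^ c →
      (∀ z ∈ Z, (1 + C * Real.log A.card / r) ^ r < (rich A P z).card) →
      GrowsB η B A ∨ (Z.card : ℝ) ≤ (A.card : ℝ) ^ (1 - c) := by
  classical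
  obtain ⟨C2, c2, N2, hC2, hc2, hc21, hN2, h2⟩ := grow_rankU η B hη hη1 hB
  obtain ⟨c3, hc3⟩ : ∃ c3 : ℝ, c3 = 2 * C2 * c2 / (c2 + 2 * C2) := ⟨_, rfl⟩
  have hc30 : 0 < c3 := by rw [hc3]; positivity
  obtain ⟨c, hc⟩ : ∃ c : ℝ, c = min (c2 / 2) c3 := ⟨_, rfl⟩
  have hc0 : 0 < c := by rw [hc]; exact lt_min (by positivity) hc30
  have hcc2 : c ≤ c2 / 2 := by rw [hc]; exact min_le_left _ _
  have hcc3 : c ≤ c3 := by rw [hc]; exact min_le_right _ _
  refine ⟨2 * C2, c, N2 + 1 + Real.exp (2 * Real.log 2 / c2), by positivity,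
    hc0, by linarith, ?_, ?_⟩
  · have := Real.exp_pos (2 * Real.log 2 / c2)
    linarith
  intro A r g P Z hAN hr hg hP hPc hrich
  by_cases hG : GrowsB η B A
  · exact Or.inl hG
  right
  by_contra hmany
  rw [not_le] at hmany
  have hexp := Real.exp_pos (2 * Real.log 2 / c2)
  have hA1 : (1 : ℝ) ≤ A.card := by linarith
  have hA0 : (0 : ℝ) < A.card := by linarith
  have ha : 0 ≤ Real.log A.card := Real.log_nonneg hA1
  have hr0 : (0 : ℝ) < r := by exact_mod_cast hr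
  have hl2 : 0 < Real.log 2 := Real.log_pos (by norm_num)
  have hlogA : 2 * Real.log 2 / c2 ≤ Real.log A.card := by
    rw [Real.le_log_iff_exp_le hA0]
    linarith
  have hlogpos : 0 < Real.log A.card := lt_of_lt_of_le (by positivity) hlogA
  have hlogA2 : Real.log 2 ≤ c2 / 2 * Real.log A.card := by
    rw [div_le_iff₀ hc2] at hlogA
    linarith
  have hpow : 2 * (A.card : ℝ) ^ (1 - c2) ≤ (A.card : ℝ) ^ (1 - c) := by
    have h3 : (2 : ℝ) ≤ (A.card : ℝ) ^ (c2 - c) := by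
      rw [← Real.log_le_log_iff (by norm_num) (Real.rpow_pos_of_pos hA0 _), Real.log_rpow hA0]
      refine hlogA2.trans (mul_le_mul_of_nonneg_right (by linarith) ha)
    have h4 : (A.card : ℝ) ^ (1 - c) = (A.card : ℝ) ^ (c2 - c) * (A.card : ℝ) ^ (1 - c2) := by
      rw [← Real.rpow_add hA0]
      congr 1
      ring
    rw [h4]
    exact mul_le_mul_of_nonneg_right h3 (Real.rpow_nonneg hA0.le _)
  have hZne : Z.Nonempty := by
    rw [← Finset.card_pos]
    have : (0 : ℝ) < Z.card := lt_of_le_of_lt (Real.rpow_nonneg hA0.le _) hmany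
    exact_mod_cast this
  -- large rank
  have hrsmall : (r : ℝ) ≤ c2 * Real.log A.card := by
    by_contra hcon
    rw [not_le] at hcon
    obtain ⟨z, hz⟩ := hZne
    have h3 := thr_large (2 * C2) c2 (Real.log A.card) r (by positivity) hc2 hlogpos hr hcon.le
    have h4 := hrich z hz
    have h5 : ((rich A P z).card : ℝ) ≤ P.card := by exact_mod_cast rich_le A P z
    have h6 : (A.card : ℝ) ^ c ≤ Real.exp (2 * C2 * c2 / (c2 + 2 * C2) * Real.log A.card) := by
      rw [Real.rpow_def_of_pos hA0, ← hc3, mul_comm]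
      exact Real.exp_le_exp.2 (mul_le_mul_of_nonneg_right hcc3 ha)
    linarith
  obtain ⟨Q, hQ⟩ : ∃ Q : Finset ℚ, Q = P.image (fun s => |s|) := ⟨_, rfl⟩
  have hQP : ∀ s ∈ Q, ∃ e : Fin r → ℤ, s = ∏ i, |g i| ^ e i := by
    intro s hs
    rw [hQ, Finset.mem_image] at hs
    obtain ⟨t, ht, rfl⟩ := hs
    obtain ⟨e, he⟩ := hP t ht
    refine ⟨e, ?_⟩
    rw [he, Finset.abs_prod]
    exact Finset.prod_congr rfl fun i _ => abs_zpow _ _
  have hgpos : ∀ i, 0 < |g i| := fun i => abs_pos.2 (hg i)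
  have hQc : (Q.card : ℝ) ≤ P.card := by
    rw [hQ]
    exact_mod_cast Finset.card_image_le
  obtain ⟨T, hT⟩ : ∃ T : ℝ, T = (C2 * Real.log A.card / r) ^ r := ⟨_, rfl⟩
  have hT0 : 0 ≤ T := by rw [hT]; positivity
  have hTT : 2 * T ≤ (1 + 2 * C2 * Real.log A.card / r) ^ r := by
    rw [hT]
    exact thr_double C2 (Real.log A.card) r hC2.le ha hr
  obtain ⟨ζ, hζ⟩ : ∃ ζ : ℚ → ℚ, ζ = fun z => if T < ((rich A Q z).card : ℝ) then z else -z :=
    ⟨_, rfl⟩
  have hζrich : ∀ z ∈ Z, T < ((rich A Q (ζ z)).card : ℝ) := by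
    intro z hz
    rw [hζ]
    by_cases h : T < ((rich A Q z).card : ℝ)
    · simp only [if_pos h]
      exact h
    · simp only [if_neg h]
      have h3 := hrich z hz
      have h4 : ((rich A P z).card : ℝ) ≤ (rich A Q z).card + (rich A Q (-z)).card := by
        rw [hQ]
        exact_mod_cast rich_abs A P z
      linarith [not_lt.1 h]
  obtain ⟨Z', hZ'⟩ : ∃ Z' : Finset ℚ, Z' = Z.image ζ := ⟨_, rfl⟩
  have hZc : (Z.card : ℝ) ≤ 2 * Z'.card := by
    have h3 : Z.card ≤ 2 * Z'.card := by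
      rw [hZ']
      refine Finset.card_le_mul_card_image Z 2 fun t _ => ?_
      have hsub : Z.filter (fun z => ζ z = t) ⊆ {t, -t} := by
        intro z hz
        have h4 := (Finset.mem_filter.1 hz).2
        rw [Finset.mem_insert, Finset.mem_singleton]
        rw [hζ] at h4
        by_cases h : T < ((rich A Q z).card : ℝ)
        · simp only [if_pos h] at h4
          exact Or.inl h4
        · simp only [if_neg h] at h4
          right
          rw [← h4, neg_neg]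
      exact (Finset.card_le_card hsub).trans Finset.card_le_two
    exact_mod_cast h3
  have hPc' : (Q.card : ℝ) ≤ (A.card : ℝ) ^ c2 :=
    (hQc.trans hPc).trans (Real.rpow_le_rpow_of_exponent_le hA1 (by linarith))
  refine hG (h2 A r (fun i => |g i|) Q Z' (by linarith) hr hrsmall hgpos hQP hPc'
    (by linarith) ?_)
  intro z hz
  rw [hZ', Finset.mem_image] at hz
  obtain ⟨w, hw, rfl⟩ := hz
  rw [← hT]
  exact hζrich w hw

/-- **Theorem GL+, part (1)** (without the sums over many multipliers). -/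
theorem mainU (k : ℕ) (ε b : ℝ) (hε : 0 < ε) : ∃ C c : ℝ, 0 < C ∧ 0 < c ∧
    ∀ A X : Finset ℤ, A.Nonempty → X.Nonempty → (X.card : ℝ) ≤ (A.card : ℝ) ^ b →
      c * X.card * (A.card : ℝ) ^ ((k : ℝ) - ε) ≤ (sk k X A).card ∨
      ((∀ g : ℚ, g ≠ 0 → g ≠ 1 → g ≠ -1 →
          (({a : ℤ | a ∈ A ∧ C * Real.log A.card <
            (({b : ℤ | b ∈ A ∧ ∃ e : ℤ, (b : ℚ) = a * g ^ e}.ncard : ℕ) : ℝ)}.ncard : ℕ) : ℝ) ≤
              (A.card : ℝ) ^ (1 - c)) ∧
       (∀ (r : ℕ) (g : Fin r → ℚ) (P : Finset ℚ), 1 ≤ r → (∀ i, g i ≠ 0) →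
          (∀ s ∈ P, ∃ e : Fin r → ℤ, s = ∏ i, g i ^ e i) → (P.card : ℝ) ≤ (A.card : ℝ) ^ c →
          (∀ Z : Finset ℚ, (∀ z ∈ Z, (1 + C * Real.log A.card / r) ^ r < (rich A P z).card) →
            (Z.card : ℝ) ≤ (A.card : ℝ) ^ (1 - c)) ∧
          (A.card : ℝ) * P.card ≤ (1 + C * Real.log A.card / r) ^ r * (prd A P).card)) := by
  classical
  obtain ⟨η, B, hη, hη1, hB, hlarge⟩ := sk_largeB k ε b hε
  obtain ⟨C1, c1, N1, hC1, hc1, hc11, hN1, hd1⟩ := grow_line η hη hη1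
  obtain ⟨C2, c2, N2, hC2, hc2, hc21, hN2, hd2⟩ := dich_rankU η B hη hη1 hB
  obtain ⟨c, hc⟩ : ∃ c : ℝ, c = min c1 c2 := ⟨_, rfl⟩
  have hc0 : 0 < c := by rw [hc]; exact lt_min hc1 hc2
  have hcc1 : c ≤ c1 := by rw [hc]; exact min_le_left _ _
  have hcc2 : c ≤ c2 := by rw [hc]; exact min_le_right _ _
  obtain ⟨N0, hN0d⟩ : ∃ N0 : ℝ, N0 = N1 + N2 + Real.exp 1 + Real.exp (3 * Real.log 2 / c) :=
    ⟨_, rfl⟩
  have hN0 : 1 ≤ N0 := by
    rw [hN0d]
    have h1 := Real.exp_pos (3 * Real.log 2 / c)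
    have h2 := Real.exp_pos 1
    linarith
  have hN0p : (0 : ℝ) < N0 ^ k := by positivity
  have hN0k : (1 : ℝ) ≤ N0 ^ k := one_le_pow₀ hN0
  obtain ⟨C, hCd⟩ : ∃ C : ℝ, C = C1 + (2 * C2 + 1) := ⟨_, rfl⟩
  have hC : 0 < C := by rw [hCd]; positivity
  refine ⟨C, min c (1 / N0 ^ k), hC, lt_min hc0 (by positivity), ?_⟩
  intro A X hA hX hXb
  have hA1 : (1 : ℝ) ≤ A.card := by exact_mod_cast hA.card_pos
  have hA0 : (0 : ℝ) < A.card := by linarith
  have hX1 : (1 : ℝ) ≤ X.card := by exact_mod_cast hX.card_pos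
  have ha : 0 ≤ Real.log A.card := Real.log_nonneg hA1
  have hc' : min c (1 / N0 ^ k) ≤ 1 / N0 ^ k := min_le_right _ _
  have hc'' : min c (1 / N0 ^ k) ≤ c := min_le_left _ _
  obtain ⟨d, hdd⟩ : ∃ d : ℝ, d = min c (1 / N0 ^ k) := ⟨_, rfl⟩
  have hd0 : 0 < d := by rw [hdd]; exact lt_min hc0 (by positivity)
  rw [← hdd] at hc' hc'' ⊢
  by_cases hG : GrowsB η B A
  · left
    have h1 := hlarge A X hA hX hXb hG
    have h2 : d ≤ 1 := hc'.trans (by rw [div_le_one hN0p]; exact hN0k)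
    have h3 : 0 ≤ (X.card : ℝ) * (A.card : ℝ) ^ ((k : ℝ) - ε) := by positivity
    calc d * X.card * (A.card : ℝ) ^ ((k : ℝ) - ε) =
          d * (X.card * (A.card : ℝ) ^ ((k : ℝ) - ε)) := by ring
      _ ≤ 1 * (X.card * (A.card : ℝ) ^ ((k : ℝ) - ε)) := mul_le_mul_of_nonneg_right h2 h3
      _ ≤ _ := by rw [one_mul]; exact h1
  by_cases hAN : N0 ≤ A.card
  · right
    have he1 := Real.exp_pos 1
    have he2 := Real.exp_pos (3 * Real.log 2 / c)
    have hAN1 : N1 ≤ A.card := by linarith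
    have hAN2 : N2 ≤ A.card := by linarith
    have hlog1 : 1 ≤ Real.log A.card := by
      rw [Real.le_log_iff_exp_le hA0]
      linarith
    have hlog3 : 3 * Real.log 2 ≤ c * Real.log A.card := by
      have h1 : 3 * Real.log 2 / c ≤ Real.log A.card := by
        rw [Real.le_log_iff_exp_le hA0]
        linarith
      rw [div_le_iff₀ hc0] at h1
      linarith
    have hlog2 : 0 < Real.log 2 := Real.log_pos (by norm_num)
    have hw : ∀ c' : ℝ, c ≤ c' → (A.card : ℝ) ^ (1 - c') + 1 ≤ A.card / 2 := by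
      intro c' hc'
      have h1 : (A.card : ℝ) ^ (1 - c') ≤ (A.card : ℝ) ^ (1 - c) :=
        Real.rpow_le_rpow_of_exponent_le hA1 (by linarith)
      have h2 : 8 * (A.card : ℝ) ^ (1 - c) ≤ A.card := by
        have h3 : (8 : ℝ) ≤ (A.card : ℝ) ^ c := by
          rw [← Real.log_le_log_iff (by norm_num) (Real.rpow_pos_of_pos hA0 _),
            Real.log_rpow hA0, show (8 : ℝ) = 2 ^ 3 by norm_num, Real.log_pow]
          push_cast
          linarith
        have h4 : (A.card : ℝ) = (A.card : ℝ) ^ c * (A.card : ℝ) ^ (1 - c) := by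
          rw [← Real.rpow_add hA0]
          have : c + (1 - c) = 1 := by ring
          rw [this, Real.rpow_one]
        calc 8 * (A.card : ℝ) ^ (1 - c) ≤ (A.card : ℝ) ^ c * (A.card : ℝ) ^ (1 - c) :=
              mul_le_mul_of_nonneg_right h3 (Real.rpow_nonneg hA0.le _)
          _ = A.card := h4.symm
      have h5 : (1 : ℝ) ≤ (A.card : ℝ) ^ (1 - c) := by
        refine Real.one_le_rpow hA1 ?_
        linarith
      linarith
    have hpd : (A.card : ℝ) ^ (1 - c) ≤ (A.card : ℝ) ^ (1 - d) :=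
      Real.rpow_le_rpow_of_exponent_le hA1 (by linarith)
    -- long cosets
    have hlong : ∀ g : ℚ, g ≠ 0 → g ≠ 1 → g ≠ -1 →
        ((long A g (C1 * Real.log A.card)).card : ℝ) ≤ (A.card : ℝ) ^ (1 - c1) := by
      intro g hg0 hg1 hgm
      by_contra hcon
      exact hG (Grows.toB (hd1 A g _ hAN1 hg0 hg1 hgm (fun a haY => mem_long.1 haY)
        (not_le.1 hcon)))
    have hfirst : ∀ g : ℚ, g ≠ 0 → g ≠ 1 → g ≠ -1 →
        (({a : ℤ | a ∈ A ∧ C * Real.log A.card <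
          (({b : ℤ | b ∈ A ∧ ∃ e : ℤ, (b : ℚ) = a * g ^ e}.ncard : ℕ) : ℝ)}.ncard : ℕ) : ℝ) ≤
            (A.card : ℝ) ^ (1 - d) := by
      intro g hg0 hg1 hgm
      have hco : ∀ a : ℤ, {b : ℤ | b ∈ A ∧ ∃ e : ℤ, (b : ℚ) = a * g ^ e}.ncard =
          (co A g a).card := by
        intro a
        rw [← Set.ncard_coe_finset]
        congr 1
        ext b
        rw [Finset.mem_coe, mem_co]
        exact Iff.rfl
      have h1 : {a : ℤ | a ∈ A ∧ C * Real.log A.card <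
          (({b : ℤ | b ∈ A ∧ ∃ e : ℤ, (b : ℚ) = a * g ^ e}.ncard : ℕ) : ℝ)} ⊆
          (long A g (C1 * Real.log A.card) : Set ℤ) := by
        rintro a ⟨haA, hca⟩
        rw [hco a] at hca
        refine Finset.mem_coe.2 (mem_long.2 ⟨haA, lt_of_le_of_lt ?_ hca⟩)
        refine mul_le_mul_of_nonneg_right ?_ ha
        rw [hCd]
        linarith
      have h2 := Set.ncard_le_ncard h1 (Finset.finite_toSet _)
      rw [Set.ncard_coe_finset] at h2
      have h3 : (({a : ℤ | a ∈ A ∧ C * Real.log A.card <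
          (({b : ℤ | b ∈ A ∧ ∃ e : ℤ, (b : ℚ) = a * g ^ e}.ncard : ℕ) : ℝ)}.ncard : ℕ) : ℝ) ≤
          (long A g (C1 * Real.log A.card)).card := by exact_mod_cast h2
      refine h3.trans ((hlong g hg0 hg1 hgm).trans ?_)
      exact Real.rpow_le_rpow_of_exponent_le hA1 (by linarith)
    -- rank `r`
    have hsecond : ∀ (r : ℕ) (g : Fin r → ℚ) (P : Finset ℚ), 1 ≤ r → (∀ i, g i ≠ 0) →
        (∀ s ∈ P, ∃ e : Fin r → ℤ, s = ∏ i, g i ^ e i) → (P.card : ℝ) ≤ (A.card : ℝ) ^ d →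
        ∀ Z : Finset ℚ, (∀ z ∈ Z, (1 + C2 * Real.log A.card / r) ^ r < (rich A P z).card) →
          (Z.card : ℝ) ≤ (A.card : ℝ) ^ (1 - c2) := by
      intro r g P hr hg hP hPc Z hZ
      refine (hd2 A r g P Z hAN2 hr hg hP ?_ hZ).resolve_left hG
      exact hPc.trans (Real.rpow_le_rpow_of_exponent_le hA1 (by linarith))
    refine ⟨hfirst, fun r g P hr hg hP hPc => ⟨fun Z hZ => ?_, ?_⟩⟩
    · have hr0 : (0 : ℝ) < r := by exact_mod_cast hr
      refine (hsecond r g P hr hg hP hPc Z fun z hz => lt_of_le_of_lt ?_ (hZ z hz)).trans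
        (Real.rpow_le_rpow_of_exponent_le hA1 (by linarith))
      refine pow_le_pow_left₀ (by positivity) ?_ r
      have h1 : C2 * Real.log A.card ≤ C * Real.log A.card :=
        mul_le_mul_of_nonneg_right (by rw [hCd]; linarith) ha
      have h2 := div_le_div_of_nonneg_right h1 hr0.le
      linarith
    · have hr0 : (0 : ℝ) < r := by exact_mod_cast hr
      have hP0 : ∀ s ∈ P, s ≠ 0 := by
        intro s hs
        obtain ⟨e, he⟩ := hP s hs
        rw [he]
        exact Finset.prod_ne_zero_iff.2 fun i _ => zpow_ne_zero _ (hg i)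
      have h1 := prd_rank A P hP0 ((1 + C2 * Real.log A.card / r) ^ r) (by positivity)
        ((A.card : ℝ) ^ (1 - c2)) (fun Z hZ => hsecond r g (P.image (fun s => s⁻¹)) hr hg ?_ ?_
          Z hZ)
      · refine fin_bound (A.card : ℝ) ((A.card : ℝ) ^ (1 - c2)) _ _ _ _
          (Nat.cast_nonneg _) (hw c2 hcc2) h1 ?_ (Nat.cast_nonneg _)
        refine (thr_double' C2 (Real.log A.card) r hC2.le hlog1 hr).trans ?_
        refine pow_le_pow_left₀ (by positivity) ?_ r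
        have h3 : (2 * C2 + 1) * Real.log A.card ≤ C * Real.log A.card :=
          mul_le_mul_of_nonneg_right (by rw [hCd]; linarith) ha
        have h4 := div_le_div_of_nonneg_right h3 hr0.le
        linarith
      · intro t ht
        obtain ⟨s, hs, rfl⟩ := Finset.mem_image.1 ht
        obtain ⟨e, he⟩ := hP s hs
        refine ⟨fun i => -e i, ?_⟩
        rw [he, ← Finset.prod_inv_distrib]
        exact Finset.prod_congr rfl fun i _ => by rw [zpow_neg]
      · have h2 : ((P.image (fun s => s⁻¹)).card : ℝ) ≤ P.card := by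
          exact_mod_cast Finset.card_image_le
        exact h2.trans hPc
  · left
    rw [not_le] at hAN
    have h1 : (X.card : ℝ) ≤ (sk k X A).card := by exact_mod_cast le_sk k X A hA
    have h2 : (A.card : ℝ) ^ ((k : ℝ) - ε) ≤ N0 ^ k := by
      calc (A.card : ℝ) ^ ((k : ℝ) - ε) ≤ (A.card : ℝ) ^ (k : ℝ) :=
            Real.rpow_le_rpow_of_exponent_le hA1 (by linarith)
        _ = (A.card : ℝ) ^ k := Real.rpow_natCast _ _
        _ ≤ N0 ^ k := pow_le_pow_left₀ (by linarith) hAN.le k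
    have h3 : d * (A.card : ℝ) ^ ((k : ℝ) - ε) ≤ 1 := by
      calc d * (A.card : ℝ) ^ ((k : ℝ) - ε) ≤ (1 / N0 ^ k) * N0 ^ k :=
            mul_le_mul hc' h2 (by positivity) (by positivity)
        _ = 1 := by field_simp
    calc d * X.card * (A.card : ℝ) ^ ((k : ℝ) - ε) =
          X.card * (d * (A.card : ℝ) ^ ((k : ℝ) - ε)) := by ring
      _ ≤ X.card * 1 := mul_le_mul_of_nonneg_left h3 (by linarith)
      _ ≤ _ := by rw [mul_one]; exact h1

end Pool.Agent.Helper15.GLP
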