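import Pool.Agent.Helper15.GL.GrowR
import Pool.Agent.Helper15.GLP.Conv

set_option autoImplicit false

/-!
# Project GL+ (MP_120218), GrowB: sets which expand all sets of bounded size, estimates
-/

namespace Pool.Agent.Helper15.GLP

open Finset Pool.Agent.Helper15.GL

/-- `A` expands every set `X` with `|X| ≤ |A|^B` almost maximally -/
def GrowsB (η B : ℝ) (A : Finset ℤ) : Prop :=
  ∀ X : Finset ℤ, X.Nonempty → Real.log X.card ≤ B * Real.log A.card →
    (1 - η) * (Real.log X.card + Real.log A.card) ≤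
      Real.log ((Finset.image₂ (fun a b => a + b) X A).card)

theorem Grows.toB {η B : ℝ} {A : Finset ℤ} (h : Grows η A) : GrowsB η B A :=
  fun X hX _ => h X hX

theorem sk_card_le (k : ℕ) (X A : Finset ℤ) : (sk k X A).card ≤ X.card * A.card ^ k := by
  unfold sk
  refine Finset.card_image_le.trans ?_
  rw [Finset.card_product, Fintype.card_piFinset]
  simp

theorem sk_nonempty (k : ℕ) (X A : Finset ℤ) (hX : X.Nonempty) (hA : A.Nonempty) :
    (sk k X A).Nonempty := by
  rw [← Finset.card_pos]
  exact lt_of_lt_of_le hX.card_pos (le_sk k X A hA)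

theorem sk_iterB (η B : ℝ) (hη : 0 ≤ η) (hη1 : η ≤ 1) (A X : Finset ℤ) (hA : A.Nonempty)
    (hX : X.Nonempty) (hG : GrowsB η B A) (K : ℕ)
    (hB : Real.log X.card + K * Real.log A.card ≤ B * Real.log A.card) (k : ℕ) (hk : k ≤ K) :
    (1 - k * η) * (Real.log X.card + k * Real.log A.card) ≤ Real.log (sk k X A).card := by
  have hA1 : (1 : ℝ) ≤ A.card := by exact_mod_cast hA.card_pos
  have hX1 : (1 : ℝ) ≤ X.card := by exact_mod_cast hX.card_pos
  have ha : 0 ≤ Real.log A.card := Real.log_nonneg hA1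
  have hx : 0 ≤ Real.log X.card := Real.log_nonneg hX1
  induction k with
  | zero =>
    have h1 : (X.card : ℝ) ≤ (sk 0 X A).card := by exact_mod_cast le_sk 0 X A hA
    have h2 := Real.log_le_log (by linarith) h1
    simpa using h2
  | succ k ih =>
    have ih := ih (by omega)
    have hne := sk_nonempty k X A hX hA
    have hsk1 : (1 : ℝ) ≤ (sk k X A).card := by exact_mod_cast hne.card_pos
    have h0 : Real.log (sk k X A).card ≤ B * Real.log A.card := by
      have e1 : ((sk k X A).card : ℝ) ≤ X.card * (A.card : ℝ) ^ k := by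
        exact_mod_cast sk_card_le k X A
      have e2 := Real.log_le_log (by linarith) e1
      rw [Real.log_mul (by linarith) (by positivity), Real.log_pow] at e2
      have e3 : (k : ℝ) * Real.log A.card ≤ K * Real.log A.card := by
        refine mul_le_mul_of_nonneg_right ?_ ha
        have : k ≤ K := by omega
        exact_mod_cast this
      linarith
    have h2 := hG (sk k X A) hne h0
    have h3 : ((Finset.image₂ (fun a b => a + b) (sk k X A) A).card : ℝ) ≤
        (sk (k + 1) X A).card := by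
      exact_mod_cast Finset.card_le_card (sk_succ k X A)
    have h4 : (0 : ℝ) < (Finset.image₂ (fun a b => a + b) (sk k X A) A).card := by
      exact_mod_cast Finset.card_pos.2 (hne.image₂ hA)
    have h5 := Real.log_le_log h4 h3
    refine le_trans ?_ (h2.trans h5)
    push_cast
    have hk' : (0 : ℝ) ≤ k := Nat.cast_nonneg k
    have h6 : (1 - η) * ((1 - k * η) * (Real.log X.card + k * Real.log A.card)) ≤
        (1 - η) * Real.log (sk k X A).card := mul_le_mul_of_nonneg_left ih (by linarith)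
    have h7 : 0 ≤ Real.log X.card + k * Real.log A.card := by positivity
    have h8 : (1 - (k + 1) * η) * (Real.log X.card + k * Real.log A.card) ≤
        (1 - η) * (1 - k * η) * (Real.log X.card + k * Real.log A.card) := by
      refine mul_le_mul_of_nonneg_right ?_ h7
      nlinarith [mul_nonneg hk' (mul_nonneg hη hη)]
    have h9 : (1 - (k + 1) * η) * Real.log A.card ≤ (1 - η) * Real.log A.card := by
      refine mul_le_mul_of_nonneg_right ?_ ha
      nlinarith [mul_nonneg hk' hη]
    nlinarith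

/-- a set which expands bounded sets has large iterated sumsets -/
theorem sk_largeB (k : ℕ) (ε b : ℝ) (hε : 0 < ε) : ∃ η B : ℝ, 0 < η ∧ η ≤ 1 ∧ 0 ≤ B ∧
    ∀ A X : Finset ℤ, A.Nonempty → X.Nonempty → (X.card : ℝ) ≤ (A.card : ℝ) ^ b →
      GrowsB η B A → (X.card : ℝ) * (A.card : ℝ) ^ ((k : ℝ) - ε) ≤ (sk k X A).card := by
  have hk : (0 : ℝ) ≤ k := Nat.cast_nonneg k
  have hb0 : 0 ≤ |b| := abs_nonneg b
  have hden : (0 : ℝ) < k * (k + |b|) + ε + 1 := by positivity
  refine ⟨ε / (k * (k + |b|) + ε + 1), |b| + k, by positivity, ?_, by positivity, ?_⟩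
  · rw [div_le_one hden]
    nlinarith [mul_nonneg hk (add_nonneg hk hb0)]
  · intro A X hA hX hXb hG
    have hA1 : (1 : ℝ) ≤ A.card := by exact_mod_cast hA.card_pos
    have hX1 : (1 : ℝ) ≤ X.card := by exact_mod_cast hX.card_pos
    have ha : 0 ≤ Real.log A.card := Real.log_nonneg hA1
    have hx : 0 ≤ Real.log X.card := Real.log_nonneg hX1
    obtain ⟨η, hη⟩ : ∃ η : ℝ, η = ε / (k * (k + |b|) + ε + 1) := ⟨_, rfl⟩
    rw [← hη] at hG
    have hη0 : 0 ≤ η := by rw [hη]; positivity
    have hη1 : η ≤ 1 := by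
      rw [hη, div_le_one hden]
      nlinarith [mul_nonneg hk (add_nonneg hk hb0)]
    have h2 : Real.log X.card ≤ |b| * Real.log A.card := by
      have h3 := Real.log_le_log (by linarith) hXb
      rw [Real.log_rpow (by linarith)] at h3
      exact h3.trans (mul_le_mul_of_nonneg_right (le_abs_self b) ha)
    have h1 := sk_iterB η (|b| + k) hη0 hη1 A X hA hX hG k (by linarith) k le_rfl
    have h3 : η * (k * (k + |b|)) ≤ ε := by
      rw [hη, div_mul_eq_mul_div, div_le_iff₀ hden]
      nlinarith [mul_nonneg hk (add_nonneg hk hb0)]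
    have h4 : k * η * (Real.log X.card + k * Real.log A.card) ≤ ε * Real.log A.card := by
      have h5 : Real.log X.card + k * Real.log A.card ≤ (k + |b|) * Real.log A.card := by
        nlinarith
      calc k * η * (Real.log X.card + k * Real.log A.card) ≤
            k * η * ((k + |b|) * Real.log A.card) :=
              mul_le_mul_of_nonneg_left h5 (by positivity)
        _ = (η * (k * (k + |b|))) * Real.log A.card := by ring
        _ ≤ ε * Real.log A.card := mul_le_mul_of_nonneg_right h3 ha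
    have h5 : Real.log X.card + ((k : ℝ) - ε) * Real.log A.card ≤ Real.log (sk k X A).card := by
      nlinarith
    have h6 : (0 : ℝ) < (sk k X A).card := by
      have : (X.card : ℝ) ≤ (sk k X A).card := by exact_mod_cast le_sk k X A hA
      linarith
    have h7 : (0 : ℝ) < X.card * (A.card : ℝ) ^ ((k : ℝ) - ε) :=
      mul_pos (by linarith) (Real.rpow_pos_of_pos (by linarith) _)
    rw [← Real.log_le_log_iff h7 h6, Real.log_mul (by linarith)
      (Real.rpow_pos_of_pos (by linarith) _).ne', Real.log_rpow (by linarith)]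
    exact h5

/-- `log y ≤ λ y + log (1 / λ)` -/
theorem log_le_lin (l y : ℝ) (hl : 0 < l) (hy : 0 < y) : Real.log y ≤ l * y + Real.log (1 / l) := by
  have h1 := Real.log_le_sub_one_of_pos (mul_pos hl hy)
  rw [Real.log_mul hl.ne' hy.ne'] at h1
  rw [one_div, Real.log_inv]
  linarith

/-- the binomial coefficient `binom (N + r) r` -/
theorem choose_le (N r : ℕ) (hr : 1 ≤ r) :
    (((N + r).choose r : ℕ) : ℝ) ≤ (Real.exp 1 * ((N : ℝ) + r) / r) ^ r := by
  have hr0 : (0 : ℝ) < r := by exact_mod_cast hr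
  have h1 := Nat.choose_le_pow_div (α := ℝ) r (N + r)
  have h2 := Real.pow_div_factorial_le_exp (r : ℝ) hr0.le r
  have hf : (0 : ℝ) < r.factorial := by exact_mod_cast r.factorial_pos
  refine h1.trans ?_
  rw [div_le_iff₀ hf, div_pow, mul_pow, ← Real.exp_nat_mul, mul_one]
  rw [div_le_iff₀ hf] at h2
  rw [div_mul_eq_mul_div, le_div_iff₀ (by positivity)]
  push_cast
  have h3 : (0 : ℝ) ≤ ((N : ℝ) + r) ^ r := by positivity
  calc ((N : ℝ) + r) ^ r * (r : ℝ) ^ r ≤ ((N : ℝ) + r) ^ r * (Real.exp r * r.factorial) :=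
        mul_le_mul_of_nonneg_left h2 h3
    _ = Real.exp r * ((N : ℝ) + r) ^ r * r.factorial := by ring

theorem log_choose_le (N r : ℕ) (l : ℝ) (hl : 0 < l) :
    Real.log (((N + r).choose r : ℕ) : ℝ) ≤ r + l * ((N : ℝ) + r) + r * Real.log (1 / l) := by
  rcases Nat.eq_zero_or_pos r with rfl | hr
  · simp only [Nat.choose_zero_right, Nat.cast_one, Real.log_one, Nat.cast_zero, zero_mul,
      add_zero, zero_add]
    positivity
  · have hr0 : (0 : ℝ) < r := by exact_mod_cast hr
    have hc : (0 : ℝ) < (((N + r).choose r : ℕ) : ℝ) := by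
      exact_mod_cast Nat.choose_pos (by omega)
    have h1 := Real.log_le_log hc (choose_le N r hr)
    have hy : (0 : ℝ) < ((N : ℝ) + r) / r := by positivity
    rw [mul_div_assoc, Real.log_pow, Real.log_mul (Real.exp_pos 1).ne' hy.ne',
      Real.log_exp] at h1
    have h2 := log_le_lin l _ hl hy
    have h3 : (r : ℝ) * Real.log (((N : ℝ) + r) / r) ≤
        r * (l * (((N : ℝ) + r) / r) + Real.log (1 / l)) := mul_le_mul_of_nonneg_left h2 hr0.le
    have h4 : (r : ℝ) * (l * (((N : ℝ) + r) / r) + Real.log (1 / l)) =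
        l * ((N : ℝ) + r) + r * Real.log (1 / l) := by
      field_simp
    rw [h4] at h3
    linarith

theorem choose_mono (N r r' : ℕ) (h : r' ≤ r) : (N + r').choose r' ≤ (N + r).choose r := by
  have e1 : (N + r').choose r' = (N + r').choose N := by
    rw [← Nat.choose_symm_add]
  have e2 : (N + r).choose r = (N + r).choose N := by
    rw [← Nat.choose_symm_add]
  rw [e1, e2]
  exact Nat.choose_le_choose N (by omega)

/-- a common denominator -/
theorem scale_int (Z : Finset ℚ) : ∃ E : ℕ, 0 < E ∧ ∀ z ∈ Z, ((z * E).num : ℚ) = z * E := by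
  classical
  obtain ⟨D, hD⟩ : ∃ D : ℕ, D = ∏ s ∈ Z, s.den := ⟨_, rfl⟩
  have hD0 : 0 < D := by
    rw [hD]
    exact Finset.prod_pos fun s _ => s.den_pos
  refine ⟨D, hD0, fun s hs => ?_⟩
  obtain ⟨m, hm⟩ : s.den ∣ D := by
    rw [hD]
    exact Finset.dvd_prod_of_mem _ hs
  have hint : s * D = ((s.num * m : ℤ) : ℚ) := by
    rw [hm]
    push_cast
    rw [← mul_assoc, Rat.mul_den_eq_num]
  rw [hint, Rat.num_intCast]

theorem card_scale (E : ℕ) (hE : 0 < E) (X : Finset ℤ) :
    (X.image (fun x => (E : ℤ) * x)).card = X.card := by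
  refine Finset.card_image_of_injective _ fun x y h => ?_
  have hE' : (E : ℤ) ≠ 0 := by exact_mod_cast hE.ne'
  exact mul_left_cancel₀ hE' h

theorem card_sum_scale (E : ℕ) (hE : 0 < E) (X A : Finset ℤ) :
    (Finset.image₂ (fun a b => a + b) (X.image (fun x => (E : ℤ) * x))
      (A.image (fun x => (E : ℤ) * x))).card =
      (Finset.image₂ (fun a b => a + b) X A).card := by
  rw [← card_scale E hE (Finset.image₂ (fun a b => a + b) X A)]
  congr 1
  ext w
  simp only [Finset.mem_image₂, Finset.mem_image]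
  constructor
  · rintro ⟨_, ⟨x, hx, rfl⟩, _, ⟨y, hy, rfl⟩, rfl⟩
    exact ⟨x + y, ⟨x, hx, y, hy, rfl⟩, by ring⟩
  · rintro ⟨_, ⟨x, hx, y, hy, rfl⟩, rfl⟩
    exact ⟨_, ⟨x, hx, rfl⟩, _, ⟨y, hy, rfl⟩, by ring⟩

end Pool.Agent.Helper15.GLP
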