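import Pool.Agent.Helper15.GLP.FinalU
import Pool.Agent.Helper15.GLP.SharpU
import Pool.Agent.Helper28.LN.Local

set_option autoImplicit false

/-!
# Project GL+ (MP_120218), ResultU: the combined statement
-/

namespace Pool.Agent.Helper15.GLP

open Finset Pool.Agent.Helper15.GL Pool.Agent.Helper28.LN

theorem resultU :
    (∀ k : ℕ, ∀ ε b : ℝ, 0 < ε → ∃ C c : ℝ, 0 < C ∧ 0 < c ∧
      ∀ A X : Finset ℤ, A.Nonempty → X.Nonempty → (X.card : ℝ) ≤ (A.card : ℝ) ^ b →
        c * X.card * (A.card : ℝ) ^ ((k : ℝ) - ε) ≤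
          (((X ×ˢ Fintype.piFinset (fun _ : Fin k => A)).image
            (fun f : ℤ × (Fin k → ℤ) => f.1 + ∑ i, f.2 i)).card : ℝ) ∨
        ((∀ g : ℚ, g ≠ 0 → g ≠ 1 → g ≠ -1 →
            ({a : ℤ | a ∈ A ∧ C * Real.log (A.card : ℝ) <
              ({b : ℤ | b ∈ A ∧ ∃ e : ℤ, (b : ℚ) = a * g ^ e}.ncard : ℝ)}.ncard : ℝ) ≤
                (A.card : ℝ) ^ (1 - c)) ∧
         (∀ (r : ℕ) (g : Fin r → ℚ) (P : Finset ℚ), 1 ≤ r → (∀ i, g i ≠ 0) →
            (∀ s ∈ P, ∃ e : Fin r → ℤ, s = ∏ i, g i ^ e i) →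
            (P.card : ℝ) ≤ (A.card : ℝ) ^ c →
            (∀ Z : Finset ℚ, (∀ z ∈ Z, (1 + C * Real.log (A.card : ℝ) / r) ^ r <
              ((A.filter (fun a : ℤ => ∃ s ∈ P, (a : ℚ) = z * s)).card : ℝ)) →
              (Z.card : ℝ) ≤ (A.card : ℝ) ^ (1 - c)) ∧
            (A.card : ℝ) * P.card ≤ (1 + C * Real.log (A.card : ℝ) / r) ^ r *
              ((Finset.image₂ (fun (a : ℤ) (s : ℚ) => (a : ℚ) * s) A P).card : ℝ)) ∧
         (∀ S : Finset ℤ, S ⊆ A → (A.card : ℝ) ^ (1 - c) ≤ S.card →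
            (∀ (r : ℕ) (g : Fin r → ℚ) (q : Fin r → ℕ), (∀ i, g i ≠ 0) →
              (∀ i, (q i).Prime) → Function.Injective q →
              (∀ i, padicValRat (q i) (g i) ≠ 0) →
              (∀ i l, i < l → padicValRat (q i) (g i) * padicValRat (q l) (g i) ≤ 0) →
              ∑ i, (if C * ((S.filter (fun a : ℤ => ∀ b ∈ S, (b : ℚ) ≠ g i * a)).card : ℝ) ≤
                  S.card then
                (S.card : ℝ) / (S.filter (fun a : ℤ => ∀ b ∈ S, (b : ℚ) ≠ g i * a)).card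
                else 0) < C * Real.log (A.card : ℝ)) ∧
            (∀ (P : Finset ℕ) (R : ℝ), (∀ p ∈ P, p.Prime) → C ≤ R →
              (∀ p ∈ P, R * ((S.filter (fun a : ℤ => ∀ b ∈ S, (b : ℚ) ≠ (p : ℚ) * a)).card : ℝ) ≤
                S.card) →
              R * P.card * Real.log (P.card + 1) < C * Real.log (A.card : ℝ))))) ∧
    (∀ η : ℝ, 0 < η → ∃ c : ℝ, 0 < c ∧ ∀ r n : ℕ, 1 ≤ r → 1 ≤ n →
      ∃ (A : Finset ℤ) (p : Fin r → ℕ), (∀ i, (p i).Prime) ∧ Function.Injective p ∧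
        (n : ℝ) * r * Real.log (r + 1) ≤ Real.log (A.card : ℝ) ∧
        c * Real.log (A.card : ℝ) ≤ (n : ℝ) * r * Real.log (r + 1) ∧
        (∀ k : ℕ, (((Fintype.piFinset (fun _ : Fin k => A)).image
          (fun f : Fin k → ℤ => ∑ i, f i)).card : ℝ) ≤
            ((k : ℝ) + 1) * (A.card : ℝ) ^ (1 + η)) ∧
        (∀ i, (n : ℝ) * ((A.filter (fun a : ℤ => ∀ b ∈ A, (b : ℚ) ≠ (p i : ℚ) * a)).card : ℝ) ≤
          A.card) ∧
        ∀ P : Finset ℚ, P = (Fintype.piFinset (fun _ : Fin r => Finset.Icc (-(n : ℤ)) (n : ℤ))).image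
            (fun e => ∏ i, (p i : ℚ) ^ e i) →
          (∀ a ∈ A, n ^ r ≤ (A.filter (fun b : ℤ => ∃ s ∈ P, (b : ℚ) = a * s)).card) ∧
          P.card = (2 * n + 1) ^ r ∧
          (2 * (n : ℝ) / 3) ^ r *
            ((Finset.image₂ (fun (a : ℤ) (s : ℚ) => (a : ℚ) * s) A P).card : ℝ) ≤
              (A.card : ℝ) * P.card) := by
  classical
  constructor
  · intro k ε b hε
    obtain ⟨C1, c1, hC1, hc1, h1⟩ := mainU k ε b hε
    obtain ⟨C2, c2, hC2, hc2, h2⟩ := local_forms k ε b hε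
    obtain ⟨C, hCd⟩ : ∃ C : ℝ, C = max C1 C2 := ⟨_, rfl⟩
    obtain ⟨c, hcd⟩ : ∃ c : ℝ, c = min (min c1 c2) 1 := ⟨_, rfl⟩
    have hC1C : C1 ≤ C := by rw [hCd]; exact le_max_left _ _
    have hC2C : C2 ≤ C := by rw [hCd]; exact le_max_right _ _
    have hC : 0 < C := lt_of_lt_of_le hC1 hC1C
    have hcc1 : c ≤ c1 := by rw [hcd]; exact (min_le_left _ _).trans (min_le_left _ _)
    have hcc2 : c ≤ c2 := by rw [hcd]; exact (min_le_left _ _).trans (min_le_right _ _)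
    have hcle : c ≤ 1 := by rw [hcd]; exact min_le_right _ _
    have hc : 0 < c := by rw [hcd]; exact lt_min (lt_min hc1 hc2) one_pos
    refine ⟨C, c, hC, hc, ?_⟩
    intro A X hA hX hXb
    have hA1 : (1 : ℝ) ≤ A.card := by exact_mod_cast hA.card_pos
    have hA0 : (0 : ℝ) < A.card := by linarith
    have hX0 : (0 : ℝ) < X.card := by exact_mod_cast hX.card_pos
    have hlog : 0 ≤ Real.log A.card := Real.log_nonneg hA1
    have hpow : 0 ≤ (X.card : ℝ) * (A.card : ℝ) ^ ((k : ℝ) - ε) := by positivity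
    have hexp : ∀ c' : ℝ, c ≤ c' → (A.card : ℝ) ^ (1 - c') ≤ (A.card : ℝ) ^ (1 - c) :=
      fun c' h => Real.rpow_le_rpow_of_exponent_le hA1 (by linarith)
    rcases h1 A X hA hX hXb with h3 | ⟨h3, h4⟩
    · left
      refine le_trans ?_ h3
      rw [mul_assoc, mul_assoc]
      exact mul_le_mul_of_nonneg_right hcc1 hpow
    rcases h2 A X hA hX hXb with h5 | h5
    · left
      refine le_trans ?_ h5
      rw [mul_assoc]
      calc c * ((X.card : ℝ) * (A.card : ℝ) ^ ((k : ℝ) - ε)) ≤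
            1 * ((X.card : ℝ) * (A.card : ℝ) ^ ((k : ℝ) - ε)) :=
          mul_le_mul_of_nonneg_right hcle hpow
        _ = _ := one_mul _
    right
    refine ⟨?_, ?_, ?_⟩
    · intro g hg0 hg1 hgm
      have h6 : {a : ℤ | a ∈ A ∧ C * Real.log (A.card : ℝ) <
          ({b : ℤ | b ∈ A ∧ ∃ e : ℤ, (b : ℚ) = a * g ^ e}.ncard : ℝ)} ⊆
          {a : ℤ | a ∈ A ∧ C1 * Real.log (A.card : ℝ) <
          ({b : ℤ | b ∈ A ∧ ∃ e : ℤ, (b : ℚ) = a * g ^ e}.ncard : ℝ)} := by
        rintro a ⟨ha, hb⟩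
        exact ⟨ha, lt_of_le_of_lt (mul_le_mul_of_nonneg_right hC1C hlog) hb⟩
      have h7 : {a : ℤ | a ∈ A ∧ C1 * Real.log (A.card : ℝ) <
          ({b : ℤ | b ∈ A ∧ ∃ e : ℤ, (b : ℚ) = a * g ^ e}.ncard : ℝ)}.Finite :=
        (Finset.finite_toSet A).subset fun a ha => Finset.mem_coe.2 ha.1
      have h8 := Set.ncard_le_ncard h6 h7
      have h9 : (({a : ℤ | a ∈ A ∧ C * Real.log (A.card : ℝ) <
          ({b : ℤ | b ∈ A ∧ ∃ e : ℤ, (b : ℚ) = a * g ^ e}.ncard : ℝ)}.ncard : ℕ) : ℝ) ≤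
          (({a : ℤ | a ∈ A ∧ C1 * Real.log (A.card : ℝ) <
          ({b : ℤ | b ∈ A ∧ ∃ e : ℤ, (b : ℚ) = a * g ^ e}.ncard : ℝ)}.ncard : ℕ) : ℝ) := by
        exact_mod_cast h8
      exact h9.trans ((h3 g hg0 hg1 hgm).trans (hexp c1 hcc1))
    · intro r g P hr hg hP hPc
      have hr0 : (0 : ℝ) < r := by exact_mod_cast hr
      have hthr : (1 + C1 * Real.log (A.card : ℝ) / r) ^ r ≤
          (1 + C * Real.log (A.card : ℝ) / r) ^ r := by
        refine pow_le_pow_left₀ (by positivity) ?_ r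
        have h6 := div_le_div_of_nonneg_right (mul_le_mul_of_nonneg_right hC1C hlog) hr0.le
        linarith
      obtain ⟨h6, h7⟩ := h4 r g P hr hg hP
        (hPc.trans (Real.rpow_le_rpow_of_exponent_le hA1 hcc1))
      refine ⟨fun Z hZ => ?_, ?_⟩
      · refine (h6 Z fun z hz => ?_).trans (hexp c1 hcc1)
        refine lt_of_le_of_lt hthr ?_
        have h8 := hZ z hz
        have h9 : (A.filter (fun a : ℤ => ∃ s ∈ P, (a : ℚ) = z * s)).card = (rich A P z).card := by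
          congr 1
        rw [h9] at h8
        exact h8
      · refine h7.trans (mul_le_mul_of_nonneg_right hthr (Nat.cast_nonneg _))
    · intro S hSA hS
      obtain ⟨h6, h7⟩ := h5 S hSA ((hexp c2 hcc2).trans hS)
      have hbadeq : ∀ g : ℚ, (S.filter (fun a : ℤ => ∀ b ∈ S, (b : ℚ) ≠ g * a)).card =
          (bad g S).card := by
        intro g
        unfold bad
        congr 1
      constructor
      · intro r g q hg hq hinj hv hsgn
        have h8 := h6 r g q hg hq hinj hv hsgn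
        have h9 : C2 * Real.log A.card ≤ C * Real.log A.card :=
          mul_le_mul_of_nonneg_right hC2C hlog
        refine lt_of_le_of_lt (Finset.sum_le_sum fun i _ => ?_) (lt_of_lt_of_le h8 h9)
        rw [hbadeq]
        have hb0 : (0 : ℝ) ≤ (bad (g i) S).card := Nat.cast_nonneg _
        split_ifs with h10 h11 h11
        · exact le_rfl
        · exact absurd ((mul_le_mul_of_nonneg_right hC2C hb0).trans h10) h11
        · positivity
        · exact le_rfl
      · intro P R hP hCR hbad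
        have h8 := h7 P R hP (hC2C.trans hCR) (fun p hp => by
          have h9 := hbad p hp
          rw [hbadeq] at h9
          exact h9)
        exact lt_of_lt_of_le h8 (mul_le_mul_of_nonneg_right hC2C hlog)
  · intro η hη
    obtain ⟨c, hc, h⟩ := sharpU η hη
    refine ⟨c, hc, fun r n hr hn => ?_⟩
    obtain ⟨A, p, hp, hinj, h1, h2, h3, h4, h5, h6, h7⟩ := h r n hr hn
    refine ⟨A, p, hp, hinj, h1, h2, h3, ?_, ?_⟩
    · intro i
      have h8 := h4 i
      have h9 : (A.filter (fun a : ℤ => ∀ b ∈ A, (b : ℚ) ≠ (p i : ℚ) * a)).card =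
          (bad ((p i : ℕ) : ℚ) A).card := by
        unfold bad
        congr 1
      rw [h9]
      exact h8
    · intro P hP
      subst hP
      refine ⟨fun a ha => ?_, h6, h7⟩
      refine (h5 a ha).trans (le_of_eq ?_)
      congr 1

end Pool.Agent.Helper15.GLP
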