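import Pool.Agent.Helper15.GLP.ResultU

set_option autoImplicit false

/-!
# Project GL+ (MP_120218), ResultV: the combined statement, short form
-/

namespace Pool.Agent.Helper15.GLP

open Finset

theorem resultV :
    (∀ k : ℕ, ∀ ε b : ℝ, 0 < ε → ∃ C c : ℝ, 0 < C ∧ 0 < c ∧
      ∀ A X : Finset ℤ, A.Nonempty → X.Nonempty → (X.card : ℝ) ≤ (A.card : ℝ) ^ b →
        c * X.card * (A.card : ℝ) ^ ((k : ℝ) - ε) ≤
          (((X ×ˢ Fintype.piFinset (fun _ : Fin k => A)).image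
            (fun f : ℤ × (Fin k → ℤ) => f.1 + ∑ i, f.2 i)).card : ℝ) ∨
        ((∀ g : ℚ, g ≠ 0 → g ≠ 1 → g ≠ -1 →
            ({a : ℤ | a ∈ A ∧ C * Real.log (A.card : ℝ) <
              ({b : ℤ | b ∈ A ∧ ∃ e : ℤ, (b : ℚ) = a * g ^ e}.ncard : ℝ)}.ncard : ℝ) ≤
                (A.card : ℝ) ^ (1 - c)) ∧
         (∀ (r : ℕ) (g : Fin r → ℚ) (P : Finset ℚ), 1 ≤ r → (∀ i, g i ≠ 0) →
            (∀ s ∈ P, ∃ e : Fin r → ℤ, s = ∏ i, g i ^ e i) →
            (P.card : ℝ) ≤ (A.card : ℝ) ^ c →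
            (∀ Z : Finset ℚ, (∀ z ∈ Z, (1 + C * Real.log (A.card : ℝ) / r) ^ r <
              ((A.filter (fun a : ℤ => ∃ s ∈ P, (a : ℚ) = z * s)).card : ℝ)) →
              (Z.card : ℝ) ≤ (A.card : ℝ) ^ (1 - c)) ∧
            (A.card : ℝ) * P.card ≤ (1 + C * Real.log (A.card : ℝ) / r) ^ r *
              ((Finset.image₂ (fun (a : ℤ) (s : ℚ) => (a : ℚ) * s) A P).card : ℝ)) ∧
         (∀ (S : Finset ℤ) (P : Finset ℕ) (R : ℝ), S ⊆ A →
            (A.card : ℝ) ^ (1 - c) ≤ S.card → (∀ p ∈ P, p.Prime) → C ≤ R →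
            (∀ p ∈ P, R * ((S.filter (fun a : ℤ => (p : ℤ) * a ∉ S)).card : ℝ) ≤ S.card) →
            R * P.card * Real.log (P.card + 1) < C * Real.log (A.card : ℝ)))) ∧
    (∀ η : ℝ, 0 < η → ∃ c : ℝ, 0 < c ∧ ∀ r n : ℕ, 1 ≤ r → 1 ≤ n →
      ∃ (A : Finset ℤ) (p : Fin r → ℕ), (∀ i, (p i).Prime) ∧ Function.Injective p ∧
        (n : ℝ) * r * Real.log (r + 1) ≤ Real.log (A.card : ℝ) ∧
        c * Real.log (A.card : ℝ) ≤ (n : ℝ) * r * Real.log (r + 1) ∧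
        (∀ k : ℕ, (((Fintype.piFinset (fun _ : Fin k => A)).image
          (fun f : Fin k → ℤ => ∑ i, f i)).card : ℝ) ≤
            ((k : ℝ) + 1) * (A.card : ℝ) ^ (1 + η)) ∧
        (∀ i, (n : ℝ) * ((A.filter (fun a : ℤ => (p i : ℤ) * a ∉ A)).card : ℝ) ≤ A.card) ∧
        ∀ P : Finset ℚ, P = (Fintype.piFinset (fun _ : Fin r => Finset.Icc (-(n : ℤ)) (n : ℤ))).image
            (fun e => ∏ i, (p i : ℚ) ^ e i) →
          (∀ a ∈ A, n ^ r ≤ (A.filter (fun b : ℤ => ∃ s ∈ P, (b : ℚ) = a * s)).card) ∧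
          P.card = (2 * n + 1) ^ r ∧
          (2 * (n : ℝ) / 3) ^ r *
            ((Finset.image₂ (fun (a : ℤ) (s : ℚ) => (a : ℚ) * s) A P).card : ℝ) ≤
              (A.card : ℝ) * P.card) := by
  classical
  have hfil : ∀ (S : Finset ℤ) (p : ℕ), (S.filter (fun a : ℤ => (p : ℤ) * a ∉ S)).card =
      (S.filter (fun a : ℤ => ∀ b ∈ S, (b : ℚ) ≠ (p : ℚ) * a)).card := by
    intro S p
    congr 1
    ext a
    rw [Finset.mem_filter, Finset.mem_filter]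
    refine and_congr_right fun _ => ⟨fun h b hb hba => h ?_, fun h hb => h _ hb ?_⟩
    · have h1 : ((b : ℤ) : ℚ) = (((p : ℤ) * a : ℤ) : ℚ) := by rw [hba]; push_cast; ring
      rw [← Int.cast_injective h1]
      exact hb
    · push_cast
      ring
  obtain ⟨h1, h2⟩ := resultU
  constructor
  · intro k ε b hε
    obtain ⟨C, c, hC, hc, h⟩ := h1 k ε b hε
    refine ⟨C, c, hC, hc, fun A X hA hX hXb => ?_⟩
    rcases h A X hA hX hXb with h3 | ⟨h3, h4, h5⟩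
    · exact Or.inl h3
    · refine Or.inr ⟨h3, h4, fun S P R hSA hS hP hR hbad => ?_⟩
      refine (h5 S hSA hS).2 P R hP hR fun p hp => ?_
      rw [← hfil]
      exact hbad p hp
  · intro η hη
    obtain ⟨c, hc, h⟩ := h2 η hη
    refine ⟨c, hc, fun r n hr hn => ?_⟩
    obtain ⟨A, p, hp, hinj, h3, h4, h5, h6, h7⟩ := h r n hr hn
    refine ⟨A, p, hp, hinj, h3, h4, h5, fun i => ?_, h7⟩
    rw [hfil]
    exact h6 i

end Pool.Agent.Helper15.GLP
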