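import Pool.Agent.Helper15.GLP.Shatter

set_option autoImplicit false

/-!
# Project GL+ (MP_120218), Shape: the number of shapes, existence of a tree with many leaves
-/

namespace Pool.Agent.Helper15.GLP

open Finset

/-- the vectors of natural numbers with sum at most `N` -/
def shapes (r N : ℕ) : Finset (Fin r → ℕ) :=
  (Fintype.piFinset (fun _ : Fin r => Finset.range (N + 1))).filter (fun a => ∑ j, a j ≤ N)

theorem mem_shapes {r N : ℕ} {a : Fin r → ℕ} : a ∈ shapes r N ↔ ∑ j, a j ≤ N := by
  unfold shapes
  rw [Finset.mem_filter, Fintype.mem_piFinset]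
  constructor
  · exact fun h => h.2
  · intro h
    refine ⟨fun j => ?_, h⟩
    rw [Finset.mem_range]
    have := Finset.single_le_sum (f := a) (fun i _ => Nat.zero_le _) (Finset.mem_univ j)
    omega

theorem card_shapes : ∀ r N : ℕ, (shapes r N).card = (N + r).choose r := by
  intro r
  induction r with
  | zero =>
    intro N
    rw [Nat.choose_zero_right]
    refine Finset.card_eq_one.2 ⟨fun j => 0, ?_⟩
    ext a
    rw [mem_shapes, Finset.mem_singleton]
    simp only [Finset.univ_eq_empty, Finset.sum_empty, Nat.zero_le, true_iff]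
    exact Subsingleton.elim _ _
  | succ r ih =>
    intro N
    have h1 : shapes (r + 1) N = (Finset.range (N + 1)).biUnion (fun n =>
        (shapes r (N - n)).image (fun b => (Fin.cons n b : Fin (r + 1) → ℕ))) := by
      ext a
      rw [mem_shapes, Finset.mem_biUnion]
      constructor
      · intro h
        rw [Fin.sum_univ_succ] at h
        refine ⟨a 0, by rw [Finset.mem_range]; omega, ?_⟩
        rw [Finset.mem_image]
        refine ⟨Fin.tail a, ?_, Fin.cons_self_tail a⟩
        rw [mem_shapes]
        have : ∑ j, (Fin.tail a) j = ∑ j : Fin r, a j.succ := rfl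
        rw [this]
        omega
      · rintro ⟨n, hn, h⟩
        rw [Finset.mem_range] at hn
        obtain ⟨b, hb, rfl⟩ := Finset.mem_image.1 h
        rw [mem_shapes] at hb
        rw [Fin.sum_univ_succ]
        simp only [Fin.cons_zero, Fin.cons_succ]
        omega
    rw [h1, Finset.card_biUnion]
    · have h2 : ∀ n ∈ Finset.range (N + 1), ((shapes r (N - n)).image
          (fun b => (Fin.cons n b : Fin (r + 1) → ℕ))).card = (N - n + r).choose r := by
        intro n _
        rw [Finset.card_image_of_injective, ih]
        intro b b' h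
        exact (Fin.cons_right_injective (α := fun _ => ℕ) n) h
      have h5 := Finset.sum_range_reflect (fun m => (m + r).choose r) (N + 1)
      simp only [Nat.add_sub_cancel] at h5
      rw [Finset.sum_congr rfl h2, h5]
      have h3 := Nat.sum_Icc_choose (N + r) r
      have h4 : ∑ m ∈ Finset.range (N + 1), (m + r).choose r =
          ∑ m ∈ Finset.Icc r (N + r), m.choose r := by
        rw [Finset.range_eq_Ico, Finset.sum_Ico_add' (fun m => m.choose r) 0 (N + 1) r]
        refine Finset.sum_congr ?_ fun _ _ => rfl
        ext m
        simp only [Finset.mem_Ico, Finset.mem_Icc]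
        omega
      rw [h4, h3]
      congr 1
    · intro n _ m _ hnm
      refine Finset.disjoint_left.2 fun a ha ha' => hnm ?_
      obtain ⟨b, _, rfl⟩ := Finset.mem_image.1 ha
      obtain ⟨b', _, h'⟩ := Finset.mem_image.1 ha'
      have := congrFun h' 0
      simpa using this.symm

theorem exists_le_sum {r : ℕ} (N : ℕ) : ∀ (M : ℕ) (a : Fin r → ℕ), ∑ j, a j = N + M →
    ∃ b : Fin r → ℕ, (∀ j, b j ≤ a j) ∧ ∑ j, b j = N := by
  intro M
  induction M with
  | zero => exact fun a ha => ⟨a, fun _ => le_rfl, by simpa using ha⟩
  | succ M ih =>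
    intro a ha
    have hpos : ∃ j, 0 < a j := by
      by_contra h
      push Not at h
      have : ∑ j, a j = 0 := Finset.sum_eq_zero fun j _ => Nat.le_zero.1 (h j)
      omega
    obtain ⟨j, hj⟩ := hpos
    have hsum : ∑ i, (Function.update a j (a j - 1)) i = N + M := by
      have h1 := Finset.add_sum_erase Finset.univ a (Finset.mem_univ j)
      have h2 := Finset.add_sum_erase Finset.univ (Function.update a j (a j - 1))
        (Finset.mem_univ j)
      have h3 : ∑ x ∈ Finset.univ.erase j, (Function.update a j (a j - 1)) x =
          ∑ x ∈ Finset.univ.erase j, a x := by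
        refine Finset.sum_congr rfl fun x hx => ?_
        rw [Function.update_of_ne (Finset.ne_of_mem_erase hx)]
      rw [h3, Function.update_self] at h2
      omega
    obtain ⟨b, hb, hb2⟩ := ih _ hsum
    refine ⟨b, fun i => (hb i).trans ?_, hb2⟩
    rcases eq_or_ne i j with rfl | hij
    · rw [Function.update_self]; omega
    · rw [Function.update_of_ne hij]

/-- A set of more than `binom (N + r) r` integer vectors contains a tree with `∑ a = N`. -/
theorem exists_shape {r : ℕ} (S : Finset (Fin r → ℤ)) (N : ℕ) (h : (N + r).choose r < S.card) :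
    ∃ a : Fin r → ℕ, ∑ j, a j = N ∧ Tr S a := by
  obtain ⟨S', hS', hT⟩ := shatter r S
  have hex : ∃ a ∈ S', N < ∑ j, a j := by
    by_contra hcon
    push Not at hcon
    have : S' ⊆ shapes r N := fun a ha => mem_shapes.2 (hcon a ha)
    have := Finset.card_le_card this
    rw [card_shapes] at this
    omega
  obtain ⟨a, ha, hN⟩ := hex
  obtain ⟨b, hb, hbN⟩ := exists_le_sum N (∑ j, a j - N) a (by omega)
  exact ⟨b, hbN, (hT a ha).mono hb⟩

end Pool.Agent.Helper15.GLP
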