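import Mathlib

set_option autoImplicit false

/-!
# Project GL+ (MP_120218), Shatter: order shattering of sets of integer vectors
-/

namespace Pool.Agent.Helper15.GLP

open Finset

/-- `S` contains a tree of the shape `a`: the `j`-th coordinate of the leaf `t` depends only on
`t 0, …, t j`, and is injective in `t j`. -/
def Tr {r : ℕ} (S : Finset (Fin r → ℤ)) (a : Fin r → ℕ) : Prop :=
  ∃ s : (Fin r → ℕ) → (Fin r → ℤ), (∀ t, (∀ j, t j ≤ a j) → s t ∈ S) ∧
    ∀ t t', (∀ j, t j ≤ a j) → (∀ j, t' j ≤ a j) → ∀ j, (∀ i, i < j → t i = t' i) →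
      (s t j = s t' j ↔ t j = t' j)

theorem Tr.mono {r : ℕ} {S : Finset (Fin r → ℤ)} {a b : Fin r → ℕ} (h : Tr S a) (hb : ∀ j, b j ≤ a j) :
    Tr S b := by
  obtain ⟨s, hs, hs2⟩ := h
  exact ⟨s, fun t ht => hs t fun j => (ht j).trans (hb j), fun t t' ht ht' =>
    hs2 t t' (fun j => (ht j).trans (hb j)) (fun j => (ht' j).trans (hb j))⟩

theorem exists_enum {α : Type*} [Inhabited α] (T : Finset α) (a : ℕ) (h : a < T.card) :
    ∃ e : ℕ → α, (∀ i, i ≤ a → e i ∈ T) ∧ ∀ i j, i ≤ a → j ≤ a → e i = e j → i = j := by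
  classical
  refine ⟨fun i => if hi : i < T.card then (T.equivFin.symm ⟨i, hi⟩ : T).1 else default, ?_, ?_⟩
  · intro i hi
    have : i < T.card := by omega
    simp only [this, dif_pos]
    exact (T.equivFin.symm ⟨i, this⟩).2
  · intro i j hi hj hij
    have h1 : i < T.card := by omega
    have h2 : j < T.card := by omega
    simp only [h1, h2, dif_pos] at hij
    have h3 := T.equivFin.symm.injective (Subtype.ext hij)
    exact Fin.mk.inj_iff.1 h3

/-- **Order shattering**: there are at least `|S|` shapes of trees in `S`. -/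
theorem shatter : ∀ (r : ℕ) (S : Finset (Fin r → ℤ)),
    ∃ S' : Finset (Fin r → ℕ), S.card ≤ S'.card ∧ ∀ a ∈ S', Tr S a := by
  classical
  intro r
  induction r with
  | zero =>
    intro S
    rcases S.eq_empty_or_nonempty with rfl | ⟨s, hs⟩
    · exact ⟨∅, by simp, by simp⟩
    · refine ⟨{fun j => 0}, ?_, ?_⟩
      · rw [Finset.card_singleton]
        exact Finset.card_le_one.2 fun x _ y _ => Subsingleton.elim _ _
      · intro a _
        refine ⟨fun _ => s, fun t _ => hs, fun t t' _ _ j => j.elim0⟩
  | succ r ih =>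
    intro S
    obtain ⟨F, hF⟩ : ∃ F : ℤ → Finset (Fin r → ℤ), F = fun v =>
      (S.filter (fun f => f 0 = v)).image (fun f => (Fin.tail f : Fin r → ℤ)) := ⟨_, rfl⟩
    obtain ⟨V, hV⟩ : ∃ V : Finset ℤ, V = S.image (fun f => f 0) := ⟨_, rfl⟩
    choose G hG1 hG2 using fun v => ih (F v)
    obtain ⟨U, hU⟩ : ∃ U : Finset (Fin r → ℕ), U = V.biUnion G := ⟨_, rfl⟩
    obtain ⟨c, hc⟩ : ∃ c : (Fin r → ℕ) → Finset ℤ, c = fun b => V.filter (fun v => b ∈ G v) :=
      ⟨_, rfl⟩
    refine ⟨(U.sigma (fun b => Finset.range (c b).card)).image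
      (fun x => (Fin.cons x.2 x.1 : Fin (r + 1) → ℕ)), ?_, ?_⟩
    · have hinj : Function.Injective
          (fun x : (Σ _ : (Fin r → ℕ), ℕ) => (Fin.cons x.2 x.1 : Fin (r + 1) → ℕ)) := by
        intro x y hxy
        have h1 := congrFun hxy 0
        have h2 : (Fin.tail (Fin.cons x.2 x.1 : Fin (r + 1) → ℕ) : Fin r → ℕ) =
          Fin.tail (Fin.cons y.2 y.1 : Fin (r + 1) → ℕ) := by
          have : (Fin.cons x.2 x.1 : Fin (r + 1) → ℕ) = Fin.cons y.2 y.1 := hxy
          rw [this]
        simp only [Fin.cons_zero] at h1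
        rw [Fin.tail_cons, Fin.tail_cons] at h2
        obtain ⟨x1, x2⟩ := x
        obtain ⟨y1, y2⟩ := y
        simp only at h1 h2
        rw [h1, h2]
      rw [Finset.card_image_of_injective _ hinj, Finset.card_sigma]
      have h1 : ∑ b ∈ U, (Finset.range (c b).card).card = ∑ v ∈ V, (G v).card := by
        have e1 : ∀ b ∈ U, (Finset.range (c b).card).card = ∑ v ∈ V, if b ∈ G v then 1 else 0 := by
          intro b _
          rw [Finset.card_range, hc, Finset.card_filter]
        rw [Finset.sum_congr rfl e1, Finset.sum_comm]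
        refine Finset.sum_congr rfl fun v hv => ?_
        rw [← Finset.card_filter]
        congr 1
        ext b
        simp only [Finset.mem_filter, hU, Finset.mem_biUnion]
        constructor
        · exact fun h => h.2
        · exact fun h => ⟨⟨v, hv, h⟩, h⟩
      rw [h1]
      have h2 : S.card = ∑ v ∈ V, (F v).card := by
        rw [Finset.card_eq_sum_card_image (fun f => f 0) S, hV]
        refine Finset.sum_congr rfl fun v _ => ?_
        rw [hF]
        refine (Finset.card_image_of_injOn ?_).symm
        intro f hf g hg hfg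
        have hf' := (Finset.mem_filter.1 (Finset.mem_coe.1 hf)).2
        have hg' := (Finset.mem_filter.1 (Finset.mem_coe.1 hg)).2
        have hfg' : (Fin.tail f : Fin r → ℤ) = Fin.tail g := hfg
        rw [← Fin.cons_self_tail f, ← Fin.cons_self_tail g, hfg']
        rw [hf', hg']
      rw [h2]
      exact Finset.sum_le_sum fun v _ => hG1 v
    · intro a ha
      obtain ⟨⟨b, n⟩, hx, rfl⟩ := Finset.mem_image.1 ha
      rw [Finset.mem_sigma] at hx
      obtain ⟨hb, hn⟩ := hx
      simp only [Finset.mem_range] at hn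
      obtain ⟨e, he1, he2⟩ := exists_enum (c b) n hn
      have he3 : ∀ i, i ≤ n → Tr (F (e i)) b := by
        intro i hi
        have := he1 i hi
        rw [hc, Finset.mem_filter] at this
        exact hG2 _ _ this.2
      choose! s hs1 hs2 using he3
      refine ⟨fun t => Fin.cons (e (t 0)) (s (t 0) (Fin.tail t)), ?_, ?_⟩
      · intro t ht
        have ht0 : t 0 ≤ n := by simpa using ht 0
        have ht1 : ∀ j, (Fin.tail t) j ≤ b j := by
          intro j
          have := ht j.succ
          simpa [Fin.tail] using this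
        have h1 := hs1 (t 0) ht0 (Fin.tail t) ht1
        rw [hF] at h1
        obtain ⟨f, hf, hf2⟩ := Finset.mem_image.1 h1
        rw [Finset.mem_filter] at hf
        have : (Fin.cons (e (t 0)) (s (t 0) (Fin.tail t)) : Fin (r + 1) → ℤ) = f := by
          rw [← Fin.cons_self_tail f, hf.2, ← hf2]
        change (Fin.cons (e (t 0)) (s (t 0) (Fin.tail t)) : Fin (r + 1) → ℤ) ∈ S
        rw [this]
        exact hf.1
      · intro t t' ht ht' j hj
        have ht0 : t 0 ≤ n := by simpa using ht 0
        have ht0' : t' 0 ≤ n := by simpa using ht' 0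
        have ht1 : ∀ j, (Fin.tail t) j ≤ b j := by
          intro j
          have := ht j.succ
          simpa [Fin.tail] using this
        have ht1' : ∀ j, (Fin.tail t') j ≤ b j := by
          intro j
          have := ht' j.succ
          simpa [Fin.tail] using this
        induction j using Fin.cases with
        | zero =>
          simp only [Fin.cons_zero]
          exact ⟨fun h => he2 _ _ ht0 ht0' h, fun h => by rw [h]⟩
        | succ j =>
          have h0 : t 0 = t' 0 := hj 0 (Fin.succ_pos j)
          simp only [Fin.cons_succ]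
          rw [← h0]
          exact hs2 (t 0) ht0 (Fin.tail t) (Fin.tail t') ht1 ht1' j (fun i hi => by
            have := hj i.succ (Fin.succ_lt_succ_iff.2 hi)
            simpa [Fin.tail] using this)

end Pool.Agent.Helper15.GLP
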